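import Pool.Agent.Y599.TS.Mat

/-! Two elements of a free group are separated by representations of degree `e + 2`. -/

namespace Pool.Agent.Y599.TS

open Polynomial

section
variable {Δ : Type} (c : Δ → ℚ)

def Gm (i : Δ) : Matrix (Fin 2) (Fin 2) ℚ := !![1, c i; c i, c i ^ 2 + 1]
def Gi (i : Δ) : Matrix (Fin 2) (Fin 2) ℚ := !![c i ^ 2 + 1, -c i; -c i, 1]
/-- index of a sign -/
def ix (b : Bool) : Fin 2 := if b then 1 else 0
def Em (b : Bool) : Matrix (Fin 2) (Fin 2) ℚ := if b then !![0, 0; 0, 1] else !![1, 0; 0, 0]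

theorem Gi_Gm (i : Δ) : Gi c i * Gm c i = 1 := by
  ext a b
  fin_cases a <;> fin_cases b <;> simp [Gi, Gm, Matrix.mul_apply, Fin.sum_univ_two] <;> ring

theorem Gm_Gi (i : Δ) : Gm c i * Gi c i = 1 := by
  ext a b
  fin_cases a <;> fin_cases b <;> simp [Gi, Gm, Matrix.mul_apply, Fin.sum_univ_two] <;> ring

theorem Em_mul (b : Bool) (M : Matrix (Fin 2) (Fin 2) ℚ) (j : Fin 2) :
    (Em b * M) (ix b) j = M (ix b) j := by
  cases b <;> simp [Em, ix, Matrix.mul_apply, Fin.sum_univ_two]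

theorem mul_Em_mul (b : Bool) (A M : Matrix (Fin 2) (Fin 2) ℚ) (i j : Fin 2) :
    (A * (Em b * M)) i j = A i (ix b) * M (ix b) j := by
  rw [Matrix.mul_apply, Fin.sum_univ_two, Matrix.mul_apply, Matrix.mul_apply, Fin.sum_univ_two,
    Fin.sum_univ_two]
  cases b <;> simp [Em, ix]

def Qm (x : Δ × Bool) : Matrix (Fin 2) (Fin 2) ℚ := Gm c x.1 * (Em x.2 * Gi c x.1)

theorem row_ne (S : Set Δ) (hc : ∀ i ∈ S, ∀ l ∈ S, i ≠ l → ∀ a b, (Gi c i * Gm c l) a b ≠ 0) :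
    ∀ (L : List (Δ × Bool)) (x : Δ × Bool), (∀ z ∈ x :: L, z.1 ∈ S) →
      FreeGroup.IsReduced (x :: L) →
      ∃ j, (Gi c x.1 * (L.map (Qm c)).prod) (ix x.2) j ≠ 0 := by
  intro L
  induction L with
  | nil =>
    intro x _ _
    refine ⟨ix x.2, ?_⟩
    rw [List.map_nil, List.prod_nil, mul_one]
    cases x.2
    · have : (0 : ℚ) < c x.1 ^ 2 + 1 := by positivity
      simpa [Gi, ix] using this.ne'
    · simp [Gi, ix]
  | cons y L ih =>
    intro x hS hx
    rw [FreeGroup.isReduced_cons_cons] at hx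
    obtain ⟨j, hj⟩ := ih y (fun z hz => hS z (List.mem_cons_of_mem _ hz)) hx.2
    refine ⟨j, ?_⟩
    rw [List.map_cons, List.prod_cons]
    have e : Gi c x.1 * (Qm c y * (L.map (Qm c)).prod) =
        (Gi c x.1 * Gm c y.1) * (Em y.2 * (Gi c y.1 * (L.map (Qm c)).prod)) := by
      simp only [Qm, mul_assoc]
    rw [e, mul_Em_mul]
    refine mul_ne_zero ?_ hj
    by_cases h : x.1 = y.1
    · rw [h, Gi_Gm, hx.1 h]
      simp
    · exact hc _ (hS x List.mem_cons_self) _ (hS y (by simp)) h _ _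

theorem prod_ne (S : Set Δ) (hc : ∀ i ∈ S, ∀ l ∈ S, i ≠ l → ∀ a b, (Gi c i * Gm c l) a b ≠ 0)
    (L : List (Δ × Bool)) (hS : ∀ z ∈ L, z.1 ∈ S) (hL : L ≠ []) (hr : FreeGroup.IsReduced L) : (L.map (Qm c)).prod ≠ 0 := by
  cases L with
  | nil => exact absurd rfl hL
  | cons x L =>
    intro h0
    obtain ⟨j, hj⟩ := row_ne c S hc L x hS hr
    apply hj
    rw [← Em_mul x.2 (Gi c x.1 * (L.map (Qm c)).prod) j]
    have h1 : Gi c x.1 * ((x :: L).map (Qm c)).prod = Em x.2 * (Gi c x.1 * (L.map (Qm c)).prod) := by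
      rw [List.map_cons, List.prod_cons]
      have : Gi c x.1 * (Qm c x * (L.map (Qm c)).prod) =
          (Gi c x.1 * Gm c x.1) * (Em x.2 * (Gi c x.1 * (L.map (Qm c)).prod)) := by
        simp only [Qm, mul_assoc]
      rw [this, Gi_Gm, one_mul]
    rw [← h1, h0, mul_zero]
    rfl

/-- polynomial form -/
noncomputable def Dp (b : Bool) : Matrix (Fin 2) (Fin 2) ℚ[X] :=
  if b then !![X ^ 2, 0; 0, 1] else !![1, 0; 0, X ^ 2]

noncomputable def Np (x : Δ × Bool) : Matrix (Fin 2) (Fin 2) ℚ[X] :=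
  (Gm c x.1).map C * (Dp x.2 * (Gi c x.1).map C)

/-- the diagonal matrix -/
noncomputable def Dk (b : Bool) : Matrix (Fin 2) (Fin 2) (RatFunc ℚ) :=
  if b then !![RatFunc.X, 0; 0, RatFunc.X⁻¹] else !![RatFunc.X⁻¹, 0; 0, RatFunc.X]

noncomputable def mp : ℚ →+* RatFunc ℚ := (algebraMap ℚ[X] (RatFunc ℚ)).comp C

noncomputable def Mk (x : Δ × Bool) : Matrix (Fin 2) (Fin 2) (RatFunc ℚ) :=
  mp.mapMatrix (Gm c x.1) * (Dk x.2 * mp.mapMatrix (Gi c x.1))

theorem Dk_mul (b : Bool) : Dk b * Dk (!b) = 1 := by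
  have hX : (RatFunc.X : RatFunc ℚ) ≠ 0 := RatFunc.X_ne_zero
  cases b <;>
  · ext i j
    fin_cases i <;> fin_cases j <;> simp [Dk, Matrix.mul_apply, Fin.sum_univ_two, hX]

theorem Mk_mul (i : Δ) (b : Bool) : Mk c (i, b) * Mk c (i, !b) = 1 := by
  have h1 : mp.mapMatrix (Gi c i) * mp.mapMatrix (Gm c i) = 1 := by
    rw [← map_mul, Gi_Gm, map_one]
  have h2 : mp.mapMatrix (Gm c i) * mp.mapMatrix (Gi c i) = 1 := by
    rw [← map_mul, Gm_Gi, map_one]
  have : Mk c (i, b) * Mk c (i, !b) = mp.mapMatrix (Gm c i) * (Dk b *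
      ((mp.mapMatrix (Gi c i) * mp.mapMatrix (Gm c i)) * (Dk (!b) * mp.mapMatrix (Gi c i)))) := by
    simp only [Mk, mul_assoc]
  rw [this, h1, one_mul, ← mul_assoc (Dk b), Dk_mul, one_mul, h2]

/-- the unit attached to a letter -/
noncomputable def un (i : Δ) : (Matrix (Fin 2) (Fin 2) (RatFunc ℚ))ˣ where
  val := Mk c (i, true)
  inv := Mk c (i, false)
  val_inv := Mk_mul c i true
  inv_val := Mk_mul c i false

/-- the representation -/
noncomputable def rep : FreeGroup Δ →* Matrix (Fin 2) (Fin 2) (RatFunc ℚ) :=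
  (Units.coeHom _).comp (FreeGroup.lift (un c))

theorem rep_mk (L : List (Δ × Bool)) : rep c (FreeGroup.mk L) = (L.map (Mk c)).prod := by
  unfold rep
  rw [MonoidHom.comp_apply, FreeGroup.lift_mk, map_list_prod, List.map_map]
  congr 1
  refine List.map_congr_left fun x _ => ?_
  obtain ⟨i, b⟩ := x
  cases b <;> rfl

theorem X_smul_Mk (x : Δ × Bool) :
    (RatFunc.X : RatFunc ℚ) • Mk c x = (algebraMap ℚ[X] (RatFunc ℚ)).mapMatrix (Np c x) := by
  have hX : (RatFunc.X : RatFunc ℚ) ≠ 0 := RatFunc.X_ne_zero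
  have hD : (RatFunc.X : RatFunc ℚ) • Dk x.2 = (algebraMap ℚ[X] (RatFunc ℚ)).mapMatrix (Dp x.2) := by
    cases x.2 <;>
    · ext i j
      fin_cases i <;> fin_cases j <;> simp [Dk, Dp, hX, pow_two]
  have hG : ∀ A : Matrix (Fin 2) (Fin 2) ℚ,
      (algebraMap ℚ[X] (RatFunc ℚ)).mapMatrix (A.map C) = mp.mapMatrix A := by
    intro A
    ext i j
    rfl
  rw [Np, map_mul, map_mul, hG, hG, ← hD, Mk, Matrix.smul_mul, Matrix.mul_smul]

theorem X_pow_smul (L : List (Δ × Bool)) :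
    (RatFunc.X : RatFunc ℚ) ^ L.length • (L.map (Mk c)).prod =
      (algebraMap ℚ[X] (RatFunc ℚ)).mapMatrix (L.map (Np c)).prod := by
  induction L with
  | nil => simp
  | cons x L ih =>
    rw [List.map_cons, List.prod_cons, List.map_cons, List.prod_cons, map_mul, ← ih, ← X_smul_Mk,
      List.length_cons, pow_succ', Matrix.smul_mul, Matrix.mul_smul, smul_smul]

theorem rep_ne_one [DecidableEq Δ] (x : FreeGroup Δ)
    (hc : ∀ i ∈ {i | ∃ z ∈ x.toWord, z.1 = i}, ∀ l ∈ {i | ∃ z ∈ x.toWord, z.1 = i},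
      i ≠ l → ∀ a b, (Gi c i * Gm c l) a b ≠ 0) (hx : x ≠ 1) : rep c x ≠ 1 := by
  intro h
  have hL : x.toWord ≠ [] := fun h' => hx (FreeGroup.toWord_eq_nil_iff.1 h')
  rw [← FreeGroup.mk_toWord (x := x), rep_mk] at h
  have h1 := X_pow_smul c x.toWord
  rw [h] at h1
  have h2 : (X ^ x.toWord.length : ℚ[X]) • (1 : Matrix (Fin 2) (Fin 2) ℚ[X]) =
      (x.toWord.map (Np c)).prod := by
    ext i j
    have h3 := congrFun (congrFun h1 i) j
    have h4 : algebraMap ℚ[X] (RatFunc ℚ) (((X ^ x.toWord.length : ℚ[X]) •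
        (1 : Matrix (Fin 2) (Fin 2) ℚ[X])) i j) =
        algebraMap ℚ[X] (RatFunc ℚ) ((x.toWord.map (Np c)).prod i j) := by
      refine Eq.trans ?_ h3
      by_cases hij : i = j
      · subst hij
        simp
      · simp [Matrix.one_apply_ne hij]
    rw [RatFunc.algebraMap_injective ℚ h4]
  have h5 := congrArg (evalRingHom (0 : ℚ)).mapMatrix h2
  rw [map_list_prod, List.map_map] at h5
  have h6 : ((evalRingHom (0 : ℚ)).mapMatrix : _ → Matrix (Fin 2) (Fin 2) ℚ) ∘ Np c = Qm c := by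
    funext y
    have hG : ∀ A : Matrix (Fin 2) (Fin 2) ℚ, (evalRingHom (0 : ℚ)).mapMatrix (A.map C) = A := by
      intro A
      ext i j
      simp
    have hD : (evalRingHom (0 : ℚ)).mapMatrix (Dp y.2) = Em y.2 := by
      cases y.2 <;>
      · ext i j
        fin_cases i <;> fin_cases j <;> simp [Dp, Em]
    show (evalRingHom (0 : ℚ)).mapMatrix (Np c y) = Qm c y
    rw [Np, map_mul, map_mul, hG, hG, hD, Qm]
  rw [h6] at h5
  have h7 : (evalRingHom (0 : ℚ)).mapMatrix ((X ^ x.toWord.length : ℚ[X]) •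
      (1 : Matrix (Fin 2) (Fin 2) ℚ[X])) = 0 := by
    ext i j
    have hn : x.toWord.length ≠ 0 := fun h' => hL (List.length_eq_zero_iff.1 h')
    simp [hn]
  rw [h7] at h5
  exact prod_ne c _ hc _ (fun z hz => ⟨z, hz, rfl⟩) hL FreeGroup.isReduced_toWord h5.symm

/-- a choice of parameters for which all entries of the products are nonzero -/
theorem entry_ne (m n : ℕ) (hm : 2 ≤ m) (hn : 2 ≤ n) (hmn : m ≠ n) (a b : Fin 2) :
    ((!![(m : ℚ) ^ 2 + 1, -(m : ℚ); -(m : ℚ), 1] : Matrix (Fin 2) (Fin 2) ℚ) *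
      !![1, (n : ℚ); (n : ℚ), (n : ℚ) ^ 2 + 1]) a b ≠ 0 := by
  have hm' : (2 : ℤ) ≤ m := by exact_mod_cast hm
  have hn' : (2 : ℤ) ≤ n := by exact_mod_cast hn
  have h1 : ((m : ℤ) ^ 2 + 1 - m * n) ≠ 0 := by
    intro h
    have : (m : ℤ) ∣ 1 := ⟨n - m, by linarith⟩
    have := Int.le_of_dvd one_pos this
    omega
  have h2 : ((n : ℤ) ^ 2 + 1 - m * n) ≠ 0 := by
    intro h
    have : (n : ℤ) ∣ 1 := ⟨m - n, by linarith⟩
    have := Int.le_of_dvd one_pos this
    omega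
  have h3 : ((n : ℤ) - m) ≠ 0 := fun h => hmn (by omega)
  have h4 : (1 - (m : ℤ) * n) ≠ 0 := by
    intro h
    have : (m : ℤ) ∣ 1 := ⟨n, by linarith⟩
    have := Int.le_of_dvd one_pos this
    omega
  have h1' : ((m : ℚ) ^ 2 + 1 - m * n) ≠ 0 := by exact_mod_cast h1
  have h2' : ((n : ℚ) ^ 2 + 1 - m * n) ≠ 0 := by exact_mod_cast h2
  have h3' : ((n : ℚ) - m) ≠ 0 := by exact_mod_cast h3
  have h4' : (1 - (m : ℚ) * n) ≠ 0 := by exact_mod_cast h4
  rw [Matrix.mul_apply, Fin.sum_univ_two]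
  fin_cases a <;> fin_cases b
  · intro h
    apply h1'
    simp at h
    linarith
  · intro h
    apply mul_ne_zero h3' h4'
    simp at h
    linarith
  · intro h
    apply h3'
    simp at h
    linarith
  · intro h
    apply h2'
    simp at h
    linarith

end

/-- two elements of a free group are separated by representations of degree `2 + e` -/
theorem eq_of_rep_free {Δ : Type} (e : ℕ) (x y : FreeGroup Δ)
    (h : ∀ r : FreeGroup Δ →* Matrix (Fin (2 + e)) (Fin (2 + e)) (RatFunc ℚ), r x = r y) :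
    x = y := by
  classical
  by_contra hxy
  have hne : x * y⁻¹ ≠ 1 := fun h' => hxy (mul_inv_eq_one.1 h')
  let W : List Δ := (x * y⁻¹).toWord.map Prod.fst
  let c : Δ → ℚ := fun i => ((W.idxOf i + 2 : ℕ) : ℚ)
  have hc : ∀ i ∈ {i | ∃ z ∈ (x * y⁻¹).toWord, z.1 = i},
      ∀ l ∈ {i | ∃ z ∈ (x * y⁻¹).toWord, z.1 = i}, i ≠ l → ∀ a b, (Gi c i * Gm c l) a b ≠ 0 := by
    rintro i ⟨z, hz, rfl⟩ l _ hil a b
    refine entry_ne (W.idxOf z.1 + 2) (W.idxOf l + 2) (by omega) (by omega) ?_ a b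
    intro h'
    have hmem : z.1 ∈ W := List.mem_map.2 ⟨z, hz, rfl⟩
    exact hil ((List.idxOf_inj hmem).1 (by omega))
  have h1 := rep_ne_one c (x * y⁻¹) hc hne
  have h2 := h (sumHom (rep c) (1 : FreeGroup Δ →* Matrix (Fin e) (Fin e) (RatFunc ℚ)))
  have h3 : rep c x = rep c y := by
    have := congrArg (fun M => (diagBlk (RatFunc ℚ) 2 e M).1) h2
    simp only [sumHom, MonoidHom.coe_mk, OneHom.coe_mk, diagBlk_blk] at this
    exact this
  apply h1
  rw [map_mul, h3, ← map_mul, mul_inv_cancel, map_one]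

end Pool.Agent.Y599.TS
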