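import Pool.Agent.Y599.TS.PrimU

/-! Spanning sets of the values of the words of an indexed language under linear representations. -/

namespace Pool.Agent.Y599.TS

open Pool.Agent.Helper230

/-- the language of an indexed grammar (big-step form) -/
def Lang (G : IGr) : Set (List ℕ) := {w | Der (Ex G) [Sum.inl (G.1, [])] w}

variable [Dim]

theorem DerG_false {G : IGr} {n : ℕ} {U : List ((ℕ × List ℕ) ⊕ Lt)} {k : List Lt}
    (h : DerN (ExG G false) n U k) :
    ∀ u, U = emb u → ∃ w : List ℕ, k = w.map Sum.inr ∧ DerN (Ex G) n u w := by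
  induction h with
  | nil n =>
    intro u hu
    cases u with
    | nil => exact ⟨[], rfl, DerN.nil _⟩
    | cons a u => simp [emb] at hu
  | @ter n U k z _ ih =>
    intro u hu
    cases u with
    | nil => simp [emb] at hu
    | cons a u =>
      simp only [emb, List.map_cons, List.cons.injEq] at hu
      obtain ⟨h1, h2⟩ := hu
      obtain ⟨w, rfl, hw⟩ := ih u h2
      cases a with
      | inl q => simp at h1
      | inr a =>
        simp only [Sum.map_inr, Sum.inr.injEq] at h1
        subst h1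
        exact ⟨a :: w, rfl, DerN.ter a hw⟩
  | @nt n q x U w1 w2 hx _ _ ih1 ih2 =>
    intro u hu
    cases u with
    | nil => simp [emb] at hu
    | cons a u =>
      simp only [emb, List.map_cons, List.cons.injEq] at hu
      obtain ⟨h1, h2⟩ := hu
      cases a with
      | inr a => simp at h1
      | inl q' =>
        simp only [Sum.map_inl, id_eq, Sum.inl.injEq] at h1
        subst h1
        rcases hx with ⟨v0, hv, rfl⟩ | ⟨hb, _⟩
        · obtain ⟨w1', rfl, hw1⟩ := ih1 v0 rfl
          obtain ⟨w2', rfl, hw2⟩ := ih2 u h2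
          exact ⟨w1' ++ w2', by simp, DerN.nt hv hw1 hw2⟩
        · simp at hb

theorem KG_none {G : IGr} {A : ℕ} {k : List Lt} (h : k ∈ KG G A none) :
    ∃ w : List ℕ, k = w.map Sum.inr ∧ Der (Ex G) [Sum.inl (A, [])] w := by
  obtain ⟨n, h⟩ := h
  obtain ⟨w, hk, hw⟩ := DerG_false h [Sum.inl (A, [])] rfl
  exact ⟨w, hk, n, hw⟩

/-- soundness of certificates: the values of the words of the certificate at the start symbol span
the values of all words of the language -/
theorem span_sound {G : IGr} {K : ℕ → Option ℕ → List (List Lt)} (hV : Valid G K)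
    {F : List (List ℕ)} (hF : K G.1 none = F.map (fun w => w.map Sum.inr)) {k : Type} [Field k]
    (ρ : FreeMonoid ℕ →* A2 k) : ∀ w ∈ Lang G,
      ρ (FreeMonoid.ofList w) ∈ Submodule.span k {M | ∃ u ∈ F, M = ρ (FreeMonoid.ofList u)} := by
  rintro w ⟨n, hw⟩
  let v : Vr → k := fun x => Sum.elim (fun _ => 0) (fun a => entV x.2 (ρ (FreeMonoid.of a))) x.1
  have hgen : ∀ a : ℕ, gen v (Sum.inr a) = ρ (FreeMonoid.of a) := fun a =>
    gm_of_ents _ _ _ (fun e _ => rfl)
  have hrho : ∀ u : List ℕ, rho v (u.map Sum.inr) = ρ (FreeMonoid.ofList u) := by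
    intro u
    induction u with
    | nil => exact (map_one ρ).symm
    | cons a u ih =>
      rw [List.map_cons, rho_cons, ih, hgen, FreeMonoid.ofList_cons, map_mul]
  have hmem := sound hV n none [] v (by simp [tops]) (fun _ => rfl) (fun hne => absurd rfl hne)
    G.1 w hw
  rw [hrho] at hmem
  refine (Submodule.span_mono ?_) hmem
  rintro _ ⟨x, hx, rfl⟩
  rw [Set.mem_setOf_eq, hF, List.mem_map] at hx
  obtain ⟨u, hu, rfl⟩ := hx
  exact ⟨u, hu, hrho u⟩

theorem exists_test {G : IGr} : ∃ (C : Cert) (F : List (List ℕ)), ValidC G C ∧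
    KC C G.1 none = F.map (fun w => w.map Sum.inr) ∧ ∀ w ∈ F, w ∈ Lang G := by
  classical
  obtain ⟨C, hC, hK⟩ := exists_certC G
  have h1 : ∀ k ∈ KC C G.1 none, ∃ w : List ℕ, k = w.map Sum.inr ∧ w ∈ Lang G := by
    intro k hk
    exact KG_none (hK _ _ k hk)
  have h2 : ∀ L : List (List Lt), (∀ k ∈ L, ∃ w : List ℕ, k = w.map Sum.inr ∧ w ∈ Lang G) →
      ∃ F : List (List ℕ), L = F.map (fun w => w.map Sum.inr) ∧ ∀ w ∈ F, w ∈ Lang G := by
    intro L
    induction L with
    | nil => intro _; exact ⟨[], rfl, by simp⟩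
    | cons k L ih =>
      intro h
      obtain ⟨w, hw, hwL⟩ := h k List.mem_cons_self
      obtain ⟨F, hF, hFL⟩ := ih (fun k hk => h k (List.mem_cons_of_mem _ hk))
      refine ⟨w :: F, by rw [List.map_cons, hF, hw], ?_⟩
      intro w' hw'
      rcases List.mem_cons.1 hw' with rfl | hw'
      · exact hwL
      · exact hFL w' hw'
  obtain ⟨F, hF, hFL⟩ := h2 _ h1
  exact ⟨C, F, hC, hF, hFL⟩

omit [Dim] in
/-- the certificate relation is semi-decidable, uniformly in the dimension -/
theorem s1_certF : S1 fun p : (ℕ × IGr) × Cert × List (List ℕ) =>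
    @ValidC (dim p.1.1) p.1.2 p.2.1 ∧
    KC p.2.1 p.1.2.1 none = p.2.2.map (fun w => w.map Sum.inr) := by
  refine S1.and ?_ (S1.of_prim ?_)
  · exact s1_ValidC.comp (f := fun p : (ℕ × IGr) × Cert × List (List ℕ) => (p.1.1, p.1.2, p.2.1))
      (Primrec.pair (Primrec.fst.comp Primrec.fst)
        (Primrec.pair (Primrec.snd.comp Primrec.fst) (Primrec.fst.comp Primrec.snd)))
  · refine PrimrecRel.comp Primrec.eq ?_ ?_
    · exact prim_KC.comp (Primrec.pair (Primrec.fst.comp Primrec.snd)
        (Primrec.pair (Primrec.fst.comp (Primrec.snd.comp Primrec.fst)) (Primrec.const none)))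
    · refine Primrec.list_map (Primrec.snd.comp Primrec.snd) ?_
      refine Primrec.list_map (f := fun q : ((ℕ × IGr) × Cert × List (List ℕ)) × List ℕ => q.2)
        (g := fun _ a => (Sum.inr a : Lt)) Primrec.snd ?_
      exact Primrec.sumInr.comp Primrec.snd

end Pool.Agent.Y599.TS
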