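import Mathlib

/-! Words over letters evaluated as matrices of a fixed dimension (adapted from
`Pool.Agent.Helper230.IdxAlg`, where pairs of 2×2 matrices are used). -/

namespace Pool.Agent.Y599.TS

/-- letters: `inl (B,i)` is the `i`-th copy of a frozen nonterminal, `inr a` a terminal. -/
abbrev Lt := (ℕ × ℕ) ⊕ ℕ
/-- variables: letter with an entry index -/
abbrev Vr := Lt × ℕ
/-- polynomial with natural coefficients as a list of monomials -/
abbrev PL := List (List Vr)

/-- the dimension of the matrices, a global parameter -/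
class Dim where
  D : ℕ

/-- the number of entries -/
abbrev NN [Dim] : ℕ := Dim.D * Dim.D
abbrev M4 := List PL
abbrev A2 [Dim] (k : Type) := Matrix (Fin Dim.D) (Fin Dim.D) k

variable [Dim]


section eval
variable {k : Type} [CommRing k]

def mono (v : Vr → k) (m : List Vr) : k := (m.map v).prod
def pval (v : Vr → k) (P : PL) : k := (P.map (mono v)).sum

def mulx (a : PL) (x : Vr) : PL := a.map (fun m => x :: m)
def pmul (a b : PL) : PL := a.flatMap (fun m => b.map (fun m' => m ++ m'))

@[simp] theorem pval_nil (v : Vr → k) : pval v [] = 0 := rfl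
@[simp] theorem pval_append (v : Vr → k) (a b : PL) : pval v (a ++ b) = pval v a + pval v b := by
  simp [pval]
@[simp] theorem pval_cons (v : Vr → k) (m : List Vr) (b : PL) :
    pval v (m :: b) = mono v m + pval v b := by
  simp [pval]
@[simp] theorem mono_nil (v : Vr → k) : mono v [] = 1 := rfl
@[simp] theorem mono_cons (v : Vr → k) (x : Vr) (m : List Vr) :
    mono v (x :: m) = v x * mono v m := by simp [mono]
@[simp] theorem mono_append (v : Vr → k) (a b : List Vr) :
    mono v (a ++ b) = mono v a * mono v b := by simp [mono]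
@[simp] theorem pval_mulx (v : Vr → k) (a : PL) (x : Vr) :
    pval v (mulx a x) = pval v a * v x := by
  induction a with
  | nil => simp [mulx]
  | cons m a ih =>
    have : mulx (m :: a) x = (x :: m) :: mulx a x := rfl
    rw [this, pval_cons, ih, mono_cons, pval_cons]; ring
theorem pval_map_append (v : Vr → k) (m : List Vr) (b : PL) :
    pval v (b.map (fun m' => m ++ m')) = mono v m * pval v b := by
  induction b with
  | nil => simp
  | cons m' b ih => simp only [List.map_cons, pval_cons, ih, mono_append]; ring
@[simp] theorem pval_pmul (v : Vr → k) (a b : PL) :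
    pval v (pmul a b) = pval v a * pval v b := by
  induction a with
  | nil => simp [pmul]
  | cons m a ih =>
    have : pmul (m :: a) b = b.map (fun m' => m ++ m') ++ pmul a b := rfl
    rw [this, pval_append, ih, pval_map_append, pval_cons]; ring
theorem pval_flatMap {ι : Type} (v : Vr → k) (c : List ι) (f : ι → PL) :
    pval v (c.flatMap f) = (c.map (fun x => pval v (f x))).sum := by
  induction c with
  | nil => simp
  | cons x c ih => simp [ih]

/-- symbolic right multiplication by a generic letter -/
def stepM (M : M4) (z : Lt) : M4 :=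
  (List.range NN).map (fun e => (List.range Dim.D).flatMap (fun l =>
    mulx (M.getD (e / Dim.D * Dim.D + l) []) (z, l * Dim.D + e % Dim.D)))

def ent0 : M4 := (List.range NN).map (fun e => if e / Dim.D = e % Dim.D then [[]] else [])

def ents (w : List Lt) : List PL := w.foldl stepM ent0

def gen (v : Vr → k) (z : Lt) : A2 k := Matrix.of fun i j => v (z, i.val * Dim.D + j.val)

def rho (v : Vr → k) (w : List Lt) : A2 k := (w.map (gen v)).prod

@[simp] theorem rho_nil (v : Vr → k) : rho v [] = 1 := rfl
@[simp] theorem rho_cons (v : Vr → k) (z : Lt) (w : List Lt) :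
    rho v (z :: w) = gen v z * rho v w := by simp [rho]
@[simp] theorem rho_append (v : Vr → k) (u w : List Lt) :
    rho v (u ++ w) = rho v u * rho v w := by simp [rho]

theorem idx_lt (i j : Fin Dim.D) : i.val * Dim.D + j.val < NN := by
  have h1 : (i.val + 1) * Dim.D ≤ Dim.D * Dim.D := Nat.mul_le_mul_right _ i.isLt
  have h2 := j.isLt
  have h3 : (i.val + 1) * Dim.D = i.val * Dim.D + Dim.D := by ring
  show i.val * Dim.D + j.val < Dim.D * Dim.D
  omega

theorem idx_div (i j : Fin Dim.D) : (i.val * Dim.D + j.val) / Dim.D = i.val := by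
  have h2 := j.isLt
  have hD : 0 < Dim.D := by omega
  rw [mul_comm, Nat.mul_add_div hD, Nat.div_eq_of_lt h2, add_zero]

theorem idx_mod (i j : Fin Dim.D) : (i.val * Dim.D + j.val) % Dim.D = j.val := by
  rw [mul_comm, Nat.mul_add_mod, Nat.mod_eq_of_lt j.isLt]

theorem div_lt {e : ℕ} (h : e < NN) : e / Dim.D < Dim.D := Nat.div_lt_of_lt_mul h

theorem mod_lt {e : ℕ} (h : e < NN) : e % Dim.D < Dim.D := by
  apply Nat.mod_lt
  rcases Nat.eq_zero_or_pos Dim.D with h0 | h0
  · have : NN = 0 := by
      show Dim.D * Dim.D = 0
      rw [h0]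
    omega
  · exact h0

theorem getD_map_range (n : ℕ) (f : ℕ → PL) (e : ℕ) (he : e < n) :
    ((List.range n).map f).getD e [] = f e := by
  rw [List.getD_eq_getElem?_getD, List.getElem?_map, List.getElem?_range he]
  rfl

theorem sum_map_range (n : ℕ) (f : ℕ → k) :
    ((List.range n).map f).sum = ∑ i : Fin n, f i.val := by
  induction n with
  | zero => simp
  | succ n ih => rw [List.range_succ, List.map_append, List.sum_append, ih, Fin.sum_univ_castSucc]; simp

def matL (v : Vr → k) (M : M4) : A2 k :=
  Matrix.of fun i j => pval v (M.getD (i.val * Dim.D + j.val) [])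

theorem matL_step (v : Vr → k) (M : M4) (z : Lt) :
    matL v (stepM M z) = matL v M * gen v z := by
  ext i j
  rw [Matrix.mul_apply]
  simp only [matL, gen, Matrix.of_apply]
  rw [stepM, getD_map_range _ _ _ (idx_lt i j), pval_flatMap, sum_map_range]
  refine Finset.sum_congr rfl fun l _ => ?_
  rw [pval_mulx, idx_div, idx_mod]

theorem matL_foldl (v : Vr → k) (w : List Lt) (M : M4) :
    matL v (w.foldl stepM M) = matL v M * (w.map (gen v)).prod := by
  induction w generalizing M with
  | nil => simp
  | cons z w ih => rw [List.foldl_cons, ih, matL_step, List.map_cons, List.prod_cons, mul_assoc]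

theorem matL_ents (v : Vr → k) (w : List Lt) : matL v (ents w) = rho v w := by
  rw [ents, matL_foldl, rho]
  have : matL v ent0 = (1 : A2 k) := by
    ext i j
    rw [Matrix.one_apply]
    simp only [matL, Matrix.of_apply]
    rw [ent0, getD_map_range _ _ _ (idx_lt i j), idx_div, idx_mod]
    by_cases h : i = j
    · subst h
      simp
    · have h' : i.val ≠ j.val := fun hh => h (Fin.ext hh)
      rw [if_neg h', if_neg h]
      rfl
  rw [this, one_mul]

theorem length_foldl (w : List Lt) : ∀ M : M4, M.length = NN → (w.foldl stepM M).length = NN := by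
  induction w with
  | nil => exact fun M h => h
  | cons z w ih =>
    intro M _
    rw [List.foldl_cons]
    exact ih _ (by simp [stepM])

theorem length_ents (w : List Lt) : (ents w).length = NN := length_foldl w _ (by simp [ent0])

def entP (e : ℕ) (w : List Lt) : PL := (ents w).getD e []

/-- the entry number `e` of a matrix (zero if there is no such entry) -/
def entV (e : ℕ) (M : A2 k) : k :=
  if h : e < NN then M ⟨e / Dim.D, div_lt h⟩ ⟨e % Dim.D, mod_lt h⟩ else 0

theorem entV_idx (M : A2 k) (i j : Fin Dim.D) : entV (i.val * Dim.D + j.val) M = M i j := by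
  rw [entV, dif_pos (idx_lt i j)]
  have h1 : (⟨(i.val * Dim.D + j.val) / Dim.D, div_lt (idx_lt i j)⟩ : Fin Dim.D) = i :=
    Fin.ext (idx_div i j)
  have h2 : (⟨(i.val * Dim.D + j.val) % Dim.D, mod_lt (idx_lt i j)⟩ : Fin Dim.D) = j :=
    Fin.ext (idx_mod i j)
  rw [h1, h2]

theorem entP_val (e : ℕ) (v : Vr → k) (w : List Lt) :
    pval v (entP e w) = entV e (rho v w) := by
  rw [← matL_ents, entV]
  by_cases h : e < NN
  · rw [dif_pos h]
    simp only [matL, Matrix.of_apply]
    rw [entP]
    congr 2
    have := Nat.div_add_mod e Dim.D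
    rw [mul_comm] at this
    exact this.symm
  · rw [dif_neg h, entP, List.getD_eq_getElem?_getD, List.getElem?_eq_none (by rw [length_ents]; omega)]
    rfl

theorem A2_ext {M N : A2 k} (h : ∀ e < NN, entV e M = entV e N) : M = N := by
  ext i j
  rw [← entV_idx M i j, ← entV_idx N i j]
  exact h _ (idx_lt i j)

theorem entV_add (e : ℕ) (M N : A2 k) : entV e (M + N) = entV e M + entV e N := by
  unfold entV
  split_ifs <;> simp

theorem entV_smul (e : ℕ) (c : k) (N : A2 k) : entV e (c • N) = c * entV e N := by
  unfold entV
  split_ifs <;> simp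

@[simp] theorem entV_zero (e : ℕ) : entV e (0 : A2 k) = 0 := by
  unfold entV
  split_ifs <;> simp

theorem entV_list_sum {ι : Type} (e : ℕ) (c : List ι) (f : ι → A2 k) :
    entV e (c.map f).sum = (c.map (fun x => entV e (f x))).sum := by
  induction c with
  | nil => simp
  | cons x c ih => simp only [List.map_cons, List.sum_cons, entV_add, ih]

end eval

/-! equality of symbolic polynomials -/

def cnt (m : List Vr) (P : PL) : ℕ := (P.filter (fun m' => m'.Perm m)).length

def polyEq (P Q : PL) : Prop := ∀ m ∈ P ++ Q, cnt m P = cnt m Q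

open MvPolynomial in
theorem mono_X (m : List Vr) :
    mono (fun x => (X x : MvPolynomial Vr ℤ)) m
      = monomial (Multiset.toFinsupp (m : Multiset Vr)) 1 := by
  induction m with
  | nil => simp
  | cons x m ih =>
    rw [mono_cons, ih, ← Multiset.cons_coe, ← Multiset.singleton_add, map_add,
      Multiset.toFinsupp_singleton, X, monomial_mul, one_mul]

theorem toFinsupp_eq_iff (m m' : List Vr) :
    Multiset.toFinsupp (m' : Multiset Vr) = Multiset.toFinsupp (m : Multiset Vr) ↔ m'.Perm m := by
  rw [Multiset.toFinsupp.injective.eq_iff, Multiset.coe_eq_coe]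

open MvPolynomial in
theorem coeff_pval_X (P : PL) (t : Vr →₀ ℕ) :
    coeff t (pval (fun x => (X x : MvPolynomial Vr ℤ)) P)
      = ((P.filter (fun m' : List Vr => Multiset.toFinsupp (m' : Multiset Vr) = t)).length : ℤ) := by
  classical
  induction P with
  | nil => simp
  | cons m P ih =>
    rw [pval_cons, coeff_add, ih, mono_X, coeff_monomial, List.filter_cons]
    split_ifs with h h' h'
    · simp only [List.length_cons]; push_cast; ring
    · simp [h] at h'
    · simp [h] at h'
    · simp

open MvPolynomial in
theorem coeff_cnt (P : PL) (m : List Vr) :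
    coeff (Multiset.toFinsupp (m : Multiset Vr)) (pval (fun x => (X x : MvPolynomial Vr ℤ)) P)
      = (cnt m P : ℤ) := by
  rw [coeff_pval_X, cnt]
  congr 2
  apply List.filter_congr
  intro m' _
  simp [toFinsupp_eq_iff]

open MvPolynomial in
theorem polyEq_iff (P Q : PL) : polyEq P Q ↔
    pval (fun x => (X x : MvPolynomial Vr ℤ)) P = pval (fun x => (X x : MvPolynomial Vr ℤ)) Q := by
  classical
  constructor
  · intro h
    ext t
    by_cases ht : ∃ m : List Vr, m ∈ P ++ Q ∧ Multiset.toFinsupp (m : Multiset Vr) = t
    · obtain ⟨m, hm, rfl⟩ := ht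
      rw [coeff_cnt, coeff_cnt, h m hm]
    · push Not at ht
      rw [coeff_pval_X, coeff_pval_X, List.filter_eq_nil_iff.2, List.filter_eq_nil_iff.2]
      · intro m hm; simpa using ht m (List.mem_append_right _ hm)
      · intro m hm; simpa using ht m (List.mem_append_left _ hm)
  · intro h m _
    have := coeff_cnt P m
    rw [h, coeff_cnt] at this
    exact_mod_cast this.symm

open MvPolynomial in
theorem pval_hom {k : Type} [CommRing k] (v : Vr → k) (P : PL) :
    eval₂Hom (Int.castRingHom k) v (pval (fun x => (X x : MvPolynomial Vr ℤ)) P) = pval v P := by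
  have h1 : ∀ m, eval₂Hom (Int.castRingHom k) v (mono (fun x => (X x : MvPolynomial Vr ℤ)) m)
      = mono v m := by
    intro m
    induction m with
    | nil => simp
    | cons x m ih => rw [mono_cons, map_mul, ih, mono_cons]; simp
  induction P with
  | nil => simp
  | cons m P ih => rw [pval_cons, map_add, ih, h1, pval_cons]

theorem polyEq.eval {k : Type} [CommRing k] {P Q : PL} (h : polyEq P Q) (v : Vr → k) :
    pval v P = pval v Q := by
  rw [← pval_hom v P, ← pval_hom v Q, (polyEq_iff P Q).1 h]

/-! membership certificates -/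

def Ident (w : List Lt) (c : List (List Lt × PL × PL)) : Prop :=
  ∀ e ∈ List.range NN,
    polyEq (entP e w ++ c.flatMap (fun x => pmul x.2.1 (entP e x.1)))
      (c.flatMap (fun x => pmul x.2.2 (entP e x.1)))

def InMod (K : List (List Lt)) (w : List Lt) : Prop :=
  ∃ c : List (List Lt × PL × PL), (∀ x ∈ c, x.1 ∈ K) ∧ Ident w c

theorem list_sum_mem_span {k : Type} [CommRing k] {ι : Type} (N : Submodule k (A2 k)) (c : List ι)
    (f : ι → A2 k) (h : ∀ x ∈ c, f x ∈ N) : (c.map f).sum ∈ N := by
  induction c with
  | nil => simp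
  | cons x c ih =>
    rw [List.map_cons, List.sum_cons]
    exact N.add_mem (h x List.mem_cons_self) (ih fun y hy => h y (List.mem_cons_of_mem _ hy))

theorem InMod.sound {k : Type} [CommRing k] {K : List (List Lt)} {w : List Lt} (h : InMod K w)
    (v : Vr → k) : rho v w ∈ Submodule.span k (rho v '' {x | x ∈ K}) := by
  obtain ⟨c, hc, hid⟩ := h
  have key : rho v w = (c.map (fun x => (pval v x.2.2 - pval v x.2.1) • rho v x.1)).sum := by
    apply A2_ext
    intro e he
    have h1 := (hid e (List.mem_range.2 he)).eval v
    rw [pval_append, pval_flatMap, pval_flatMap, entP_val] at h1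
    rw [entV_list_sum]
    have h2 : ∀ x : List Lt × PL × PL,
        entV e ((pval v x.2.2 - pval v x.2.1) • rho v x.1)
          = pval v (pmul x.2.2 (entP e x.1)) - pval v (pmul x.2.1 (entP e x.1)) := by
      intro x
      rw [entV_smul, pval_pmul, pval_pmul, entP_val]; ring
    simp only [h2]
    have h3 : ∀ c' : List (List Lt × PL × PL),
        (c'.map (fun x => pval v (pmul x.2.2 (entP e x.1)) - pval v (pmul x.2.1 (entP e x.1)))).sum
        = (c'.map (fun x => pval v (pmul x.2.2 (entP e x.1)))).sum
          - (c'.map (fun x => pval v (pmul x.2.1 (entP e x.1)))).sum := by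
      intro c'
      induction c' with
      | nil => simp
      | cons x c' ih => simp only [List.map_cons, List.sum_cons, ih]; ring
    rw [h3, ← h1]; ring
  rw [key]
  apply list_sum_mem_span
  intro x hx
  exact Submodule.smul_mem _ _ (Submodule.subset_span ⟨x.1, hc x hx, rfl⟩)

end Pool.Agent.Y599.TS
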