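import Pool.Agent.Y599.TS.Noeth

namespace Pool.Agent.Y599.TS

variable [Dim]

section rewriting
variable {Q T : Type}

/-- one rewriting step, `Ex q x` says that the symbol `q` may be rewritten as `x` -/
def Step (Ex : Q → List (Q ⊕ T) → Prop) (u v : List (Q ⊕ T)) : Prop :=
  ∃ (pre suf : List (Q ⊕ T)) (q : Q) (x : List (Q ⊕ T)),
    u = pre ++ Sum.inl q :: suf ∧ Ex q x ∧ v = pre ++ x ++ suf

inductive DerN (Ex : Q → List (Q ⊕ T) → Prop) : ℕ → List (Q ⊕ T) → List T → Prop
  | nil (n : ℕ) : DerN Ex n [] []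
  | ter {n : ℕ} {u : List (Q ⊕ T)} {w : List T} (a : T) :
      DerN Ex n u w → DerN Ex n (Sum.inr a :: u) (a :: w)
  | nt {n : ℕ} {q : Q} {x u : List (Q ⊕ T)} {w1 w2 : List T} :
      Ex q x → DerN Ex n x w1 → DerN Ex (n + 1) u w2 → DerN Ex (n + 1) (Sum.inl q :: u) (w1 ++ w2)

def Der (Ex : Q → List (Q ⊕ T) → Prop) (u : List (Q ⊕ T)) (w : List T) : Prop :=
  ∃ n, DerN Ex n u w

variable {Ex : Q → List (Q ⊕ T) → Prop}

theorem DerN.succ {n : ℕ} {u : List (Q ⊕ T)} {w : List T} (h : DerN Ex n u w) :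
    DerN Ex (n + 1) u w := by
  induction h with
  | nil n => exact DerN.nil _
  | ter a _ ih => exact DerN.ter a ih
  | nt hx _ _ ih1 ih2 => exact DerN.nt hx ih1 ih2

theorem DerN.mono {n m : ℕ} {u : List (Q ⊕ T)} {w : List T} (h : DerN Ex n u w) (hnm : n ≤ m) :
    DerN Ex m u w := by
  induction hnm with
  | refl => exact h
  | step _ ih => exact ih.succ

theorem DerN.append {n : ℕ} {u v : List (Q ⊕ T)} {w1 w2 : List T} (h1 : DerN Ex n u w1)
    (h2 : DerN Ex n v w2) : DerN Ex n (u ++ v) (w1 ++ w2) := by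
  induction h1 with
  | nil n => exact h2
  | ter a _ ih => exact DerN.ter a (ih h2)
  | nt hx hd _ _ ih2 =>
    rw [List.append_assoc]
    exact DerN.nt hx hd (ih2 h2)

theorem DerN.split {n : ℕ} {u v : List (Q ⊕ T)} {w : List T} (h : DerN Ex n (u ++ v) w) :
    ∃ w1 w2, w = w1 ++ w2 ∧ DerN Ex n u w1 ∧ DerN Ex n v w2 := by
  induction u generalizing w with
  | nil => exact ⟨[], w, rfl, DerN.nil _, h⟩
  | cons z u ih =>
    rw [List.cons_append] at h
    cases h with
    | ter a h =>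
      obtain ⟨w1, w2, rfl, h1, h2⟩ := ih h
      exact ⟨a :: w1, w2, rfl, DerN.ter a h1, h2⟩
    | nt hx hd h =>
      rename_i n q x w1 w2
      obtain ⟨w3, w4, rfl, h1, h2⟩ := ih h
      exact ⟨w1 ++ w3, w4, by rw [List.append_assoc], DerN.nt hx hd h1, h2⟩

theorem DerN.cons_split {n : ℕ} {z : Q ⊕ T} {v : List (Q ⊕ T)} {w : List T}
    (h : DerN Ex n (z :: v) w) :
    ∃ w1 w2, w = w1 ++ w2 ∧ DerN Ex n [z] w1 ∧ DerN Ex n v w2 :=
  DerN.split (u := [z]) h

theorem Der.nil : Der Ex [] [] := ⟨0, DerN.nil _⟩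

theorem Der.append {u v : List (Q ⊕ T)} {w1 w2 : List T} (h1 : Der Ex u w1)
    (h2 : Der Ex v w2) : Der Ex (u ++ v) (w1 ++ w2) := by
  obtain ⟨n, h1⟩ := h1
  obtain ⟨m, h2⟩ := h2
  exact ⟨max n m, (h1.mono (le_max_left _ _)).append (h2.mono (le_max_right _ _))⟩

theorem Der.split {u v : List (Q ⊕ T)} {w : List T} (h : Der Ex (u ++ v) w) :
    ∃ w1 w2, w = w1 ++ w2 ∧ Der Ex u w1 ∧ Der Ex v w2 := by
  obtain ⟨n, h⟩ := h
  obtain ⟨w1, w2, h1, h2, h3⟩ := h.split
  exact ⟨w1, w2, h1, ⟨n, h2⟩, ⟨n, h3⟩⟩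

theorem Der.ter {u : List (Q ⊕ T)} {w : List T} (a : T) (h : Der Ex u w) :
    Der Ex (Sum.inr a :: u) (a :: w) := by
  obtain ⟨n, h⟩ := h
  exact ⟨n, DerN.ter a h⟩

theorem Der.single {q : Q} {x : List (Q ⊕ T)} {w : List T} (hx : Ex q x) (h : Der Ex x w) :
    Der Ex [Sum.inl q] w := by
  obtain ⟨n, h⟩ := h
  refine ⟨n + 1, ?_⟩
  have := DerN.nt hx h (DerN.nil (n + 1))
  rwa [List.append_nil] at this

theorem Der.nt {q : Q} {x u : List (Q ⊕ T)} {w1 w2 : List T} (hx : Ex q x) (h1 : Der Ex x w1)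
    (h2 : Der Ex u w2) : Der Ex (Sum.inl q :: u) (w1 ++ w2) :=
  (Der.single hx h1).append h2

theorem Der.of_ters (w : List T) : Der Ex (w.map Sum.inr) w := by
  induction w with
  | nil => exact Der.nil
  | cons a w ih => exact Der.ter a ih

theorem Der.of_step {u v : List (Q ⊕ T)} {w : List T} (hs : Step Ex u v) (h : Der Ex v w) :
    Der Ex u w := by
  obtain ⟨pre, suf, q, x, rfl, hx, rfl⟩ := hs
  obtain ⟨w1, w2, rfl, h1, h2⟩ := h.split
  obtain ⟨w3, w4, rfl, h3, h4⟩ := h1.split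
  rw [List.append_assoc]
  exact h3.append (Der.nt hx h4 h2)

theorem Step.append_left {u v : List (Q ⊕ T)} (p : List (Q ⊕ T)) (h : Step Ex u v) :
    Step Ex (p ++ u) (p ++ v) := by
  obtain ⟨pre, suf, q, x, rfl, hx, rfl⟩ := h
  exact ⟨p ++ pre, suf, q, x, by simp, hx, by simp⟩

theorem Step.append_right {u v : List (Q ⊕ T)} (p : List (Q ⊕ T)) (h : Step Ex u v) :
    Step Ex (u ++ p) (v ++ p) := by
  obtain ⟨pre, suf, q, x, rfl, hx, rfl⟩ := h
  exact ⟨pre, suf ++ p, q, x, by simp, hx, by simp⟩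

theorem rtg_append_left {u v : List (Q ⊕ T)} (p : List (Q ⊕ T))
    (h : Relation.ReflTransGen (Step Ex) u v) :
    Relation.ReflTransGen (Step Ex) (p ++ u) (p ++ v) :=
  Relation.ReflTransGen.lift (r := Step Ex) (p := Step Ex) (fun x => p ++ x)
    (fun _ _ h => Step.append_left p h) _ _ h

theorem rtg_append_right {u v : List (Q ⊕ T)} (p : List (Q ⊕ T))
    (h : Relation.ReflTransGen (Step Ex) u v) :
    Relation.ReflTransGen (Step Ex) (u ++ p) (v ++ p) :=
  Relation.ReflTransGen.lift (r := Step Ex) (p := Step Ex) (fun x => x ++ p)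
    (fun _ _ h => Step.append_right p h) _ _ h

theorem rtg_of_DerN {n : ℕ} {u : List (Q ⊕ T)} {w : List T} (h : DerN Ex n u w) :
    Relation.ReflTransGen (Step Ex) u (w.map Sum.inr) := by
  induction h with
  | nil n => exact Relation.ReflTransGen.refl
  | ter a _ ih => exact rtg_append_left [Sum.inr a] ih
  | @nt n q x u w1 w2 hx _ _ ih1 ih2 =>
    have h1 : Step Ex (Sum.inl q :: u) (x ++ u) := ⟨[], u, q, x, rfl, hx, by simp⟩
    rw [List.map_append]
    exact (Relation.ReflTransGen.single h1).trans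
      ((rtg_append_right u ih1).trans (rtg_append_left _ ih2))

theorem rtg_iff_Der (u : List (Q ⊕ T)) (w : List T) :
    Relation.ReflTransGen (Step Ex) u (w.map Sum.inr) ↔ Der Ex u w := by
  constructor
  · intro h
    induction h using Relation.ReflTransGen.head_induction_on with
    | refl => exact Der.of_ters w
    | head hs _ ih => exact Der.of_step hs ih
  · rintro ⟨n, h⟩
    exact rtg_of_DerN h

theorem DerN.single_inv {n : ℕ} {q : Q} {w : List T} (h : DerN Ex n [Sum.inl q] w) :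
    ∃ m x, n = m + 1 ∧ Ex q x ∧ DerN Ex m x w := by
  cases h with
  | nt hx hd h =>
    cases h
    exact ⟨_, _, rfl, hx, by simpa using hd⟩

theorem DerN.ter_inv {n : ℕ} {a : T} {w : List T} (h : DerN Ex n [Sum.inr a] w) : w = [a] := by
  cases h with
  | ter a h =>
    cases h
    rfl

theorem DerN.nil_inv {n : ℕ} {w : List T} (h : DerN Ex n [] w) : w = [] := by
  cases h
  rfl

end rewriting

/-- an indexed grammar: start symbol, copy rules `A → α`, push rules `A → B f`,
pop rules `A f → α`; in `α` the symbol `inl B` is a nonterminal, `inr a` a terminal. -/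
abbrev IGr := ℕ × List (ℕ × List (ℕ ⊕ ℕ)) × List (ℕ × ℕ × ℕ) × List (ℕ × ℕ × List (ℕ ⊕ ℕ))

/-- attach the stack `s` to all nonterminals -/
def lift (s : List ℕ) (α : List (ℕ ⊕ ℕ)) : List ((ℕ × List ℕ) ⊕ ℕ) :=
  α.map (Sum.map (fun B => (B, s)) id)

def Ex (G : IGr) (q : ℕ × List ℕ) (v : List ((ℕ × List ℕ) ⊕ ℕ)) : Prop :=
  (∃ α, (q.1, α) ∈ G.2.1 ∧ v = lift q.2 α) ∨
  (∃ B f, (q.1, B, f) ∈ G.2.2.1 ∧ v = [Sum.inl (B, f :: q.2)]) ∨
  (∃ f s α, q.2 = f :: s ∧ (q.1, f, α) ∈ G.2.2.2 ∧ v = lift s α)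

def ExG (G : IGr) (b : Bool) (q : ℕ × List ℕ) (v : List ((ℕ × List ℕ) ⊕ Lt)) : Prop :=
  (∃ v0, Ex G q v0 ∧ v = v0.map (Sum.map id Sum.inr)) ∨
  (b = true ∧ q.2 = [] ∧ ∃ i < NN, v = [Sum.inr (Sum.inl (q.1, i))])

def KG (G : IGr) (A : ℕ) (t : Option ℕ) : Set (List Lt) :=
  {k | Der (ExG G t.isSome) [Sum.inl (A, t.toList)] k}

def toLt (α : List (ℕ ⊕ ℕ)) : List Lt := α.map (Sum.map (fun B => (B, 0)) id)

def fro (C : ℕ) : List (List Lt) := (List.range NN).map (fun i => [Sum.inl (C, i)])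

def tops (G : IGr) : List (Option ℕ) :=
  none :: (G.2.2.1.map (fun r => some r.2.2) ++ G.2.2.2.map (fun r => some r.2.1))

def lets (κ : ℕ → List (List Lt)) (z : Lt) : List (List Lt) :=
  Sum.elim (fun p => κ p.1) (fun a => [[Sum.inr a]]) z

def subst (κ : ℕ → List (List Lt)) (u : List Lt) : List (List Lt) :=
  u.foldr (fun z acc => (lets κ z).flatMap (fun x => acc.map (fun y => x ++ y))) [[]]

structure Valid (G : IGr) (K : ℕ → Option ℕ → List (List Lt)) : Prop where
  copy : ∀ r ∈ G.2.1, ∀ t ∈ tops G, ∀ k ∈ subst (fun C => K C t) (toLt r.2), InMod (K r.1 t) k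
  push : ∀ r ∈ G.2.2.1, ∀ t ∈ tops G, ∀ k ∈ K r.2.1 (some r.2.2),
    ∀ k' ∈ subst (fun C => K C t) k, InMod (K r.1 t) k'
  pop : ∀ r ∈ G.2.2.2, ∀ k ∈ subst fro (toLt r.2.2), InMod (K r.1 (some r.2.1)) k

theorem subst_cons (κ : ℕ → List (List Lt)) (z : Lt) (u : List Lt) :
    subst κ (z :: u) = (lets κ z).flatMap (fun x => (subst κ u).map (fun y => x ++ y)) := rfl

theorem mem_subst_cons {κ : ℕ → List (List Lt)} {z : Lt} {u : List Lt} {k : List Lt} :
    k ∈ subst κ (z :: u) ↔ ∃ x ∈ lets κ z, ∃ y ∈ subst κ u, k = x ++ y := by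
  rw [subst_cons, List.mem_flatMap]
  constructor
  · rintro ⟨x, hx, hk⟩
    rw [List.mem_map] at hk
    obtain ⟨y, hy, rfl⟩ := hk
    exact ⟨x, hx, y, hy, rfl⟩
  · rintro ⟨x, hx, y, hy, rfl⟩
    exact ⟨x, hx, List.mem_map.2 ⟨y, hy, rfl⟩⟩

section sound
variable {k : Type} [Field k]

/-- span of the values of a finite list of words -/
def Sp (v : Vr → k) (L : List (List Lt)) : Submodule k (A2 k) :=
  Submodule.span k (rho v '' {x | x ∈ L})

theorem prod_mem_Sp (v : Vr → k) (κ : ℕ → List (List Lt)) (f : Lt → A2 k) (u : List Lt)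
    (h : ∀ z ∈ u, f z ∈ Sp v (lets κ z)) : (u.map f).prod ∈ Sp v (subst κ u) := by
  induction u with
  | nil =>
    simp only [List.map_nil, List.prod_nil]
    exact Submodule.subset_span ⟨[], by simp [subst], rfl⟩
  | cons z u ih =>
    rw [List.map_cons, List.prod_cons]
    have h1 := Submodule.mul_mem_mul (h z List.mem_cons_self)
      (ih fun y hy => h y (List.mem_cons_of_mem _ hy))
    rw [Sp, Sp, Submodule.span_mul_span] at h1
    refine Submodule.span_mono ?_ h1
    rintro _ ⟨_, ⟨x, hx, rfl⟩, _, ⟨y, hy, rfl⟩, rfl⟩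
    exact ⟨x ++ y, mem_subst_cons.2 ⟨x, hx, y, hy, rfl⟩, rho_append v x y⟩

theorem Sp_le_of_InMod (v : Vr → k) (K L : List (List Lt)) (h : ∀ x ∈ L, InMod K x) :
    Sp v L ≤ Sp v K := by
  rw [Sp, Submodule.span_le]
  rintro _ ⟨x, hx, rfl⟩
  exact (h x hx).sound v

theorem word_mem_Sp {G : IGr} {n : ℕ} {s : List ℕ} (v : Vr → k) (κ : ℕ → List (List Lt))
    (hκ : ∀ B w, DerN (Ex G) n [Sum.inl (B, s)] w → rho v (w.map Sum.inr) ∈ Sp v (κ B))
    (α : List (ℕ ⊕ ℕ)) (w : List ℕ) (h : DerN (Ex G) n (lift s α) w) :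
    rho v (w.map Sum.inr) ∈ Sp v (subst κ (toLt α)) := by
  induction α generalizing w with
  | nil =>
    have : w = [] := DerN.nil_inv h
    subst this
    exact Submodule.subset_span ⟨[], by simp [subst, toLt], rfl⟩
  | cons z α ih =>
    have h' : DerN (Ex G) n (Sum.map (fun B => (B, s)) id z :: lift s α) w := h
    obtain ⟨w1, w2, rfl, h1, h2⟩ := h'.cons_split
    have h3 := ih w2 h2
    have h4 : rho v (w1.map Sum.inr) ∈ Sp v (lets κ (Sum.map (fun B => (B, 0)) id z)) := by
      cases z with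
      | inl B => exact hκ B w1 h1
      | inr a =>
        have := DerN.ter_inv h1
        subst this
        exact Submodule.subset_span ⟨[Sum.inr a], by simp [lets], rfl⟩
    have h5 := Submodule.mul_mem_mul h4 h3
    rw [Sp, Sp, Submodule.span_mul_span] at h5
    rw [List.map_append, rho_append]
    refine Submodule.span_mono ?_ h5
    rintro _ ⟨_, ⟨x, hx, rfl⟩, _, ⟨y, hy, rfl⟩, rfl⟩
    exact ⟨x ++ y, mem_subst_cons.2 ⟨x, hx, y, hy, rfl⟩, rho_append v x y⟩

theorem exists_eight (P : Submodule k (A2 k)) :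
    ∃ y : ℕ → A2 k, (∀ i, y i ∈ P) ∧ Submodule.span k (y '' {i | i < NN}) = P := by
  have hd : Module.finrank k P ≤ NN := by
    refine (Submodule.finrank_le P).trans ?_
    rw [Module.finrank_matrix]
    simp
  let b := Module.finBasis k P
  refine ⟨fun i => if h : i < Module.finrank k P then (b ⟨i, h⟩ : A2 k) else 0, ?_, ?_⟩
  · intro i
    dsimp only
    split_ifs
    · exact Subtype.coe_prop _
    · exact P.zero_mem
  · apply le_antisymm
    · rw [Submodule.span_le]
      rintro _ ⟨i, _, rfl⟩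
      dsimp only
      split_ifs
      · exact Subtype.coe_prop _
      · exact P.zero_mem
    · have h1 : Submodule.span k (Set.range (fun j => (b j : A2 k))) = P := by
        have := congrArg (Submodule.map P.subtype) b.span_eq
        rw [Submodule.map_span, Submodule.map_top, Submodule.range_subtype, ← Set.range_comp] at this
        exact this
      refine le_trans (le_of_eq h1.symm) (Submodule.span_mono ?_)
      rintro _ ⟨j, rfl⟩
      refine ⟨j.1, lt_of_lt_of_le j.2 hd, ?_⟩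
      simp

theorem gm_of_ents (y : A2 k) (v : Vr → k) (z : Lt) (h : ∀ e < NN, v (z, e) = entV e y) :
    gen v z = y := by
  ext i j
  exact (h _ (idx_lt i j)).trans (entV_idx y i j)

theorem sound {G : IGr} {K : ℕ → Option ℕ → List (List Lt)} (hV : Valid G K) (n : ℕ) :
    ∀ (t : Option ℕ) (σ : List ℕ) (v : Vr → k), t ∈ tops G → (t = none → σ = []) →
      (t ≠ none → ∀ B w, DerN (Ex G) n [Sum.inl (B, σ)] w →
        rho v (w.map Sum.inr) ∈ Sp v (fro B)) →
      ∀ A w, DerN (Ex G) n [Sum.inl (A, t.toList ++ σ)] w →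
        rho v (w.map Sum.inr) ∈ Sp v (K A t) := by
  induction n with
  | zero =>
    intro t σ v _ _ _ A w h
    obtain ⟨m, x, h0, -⟩ := h.single_inv
    omega
  | succ n ih =>
    intro t σ v ht hnone hY A w h
    obtain ⟨m, x, h0, hx, hd⟩ := h.single_inv
    obtain rfl : n = m := by omega
    have ihn := ih t σ v ht hnone (fun hne B w hw => hY hne B w hw.succ)
    rcases hx with ⟨α, hα, rfl⟩ | ⟨B, f, hB, rfl⟩ | ⟨f, s, α, hs, hα, rfl⟩
    · have h1 := word_mem_Sp v (fun C => K C t) ihn α w hd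
      exact Sp_le_of_InMod v _ _ (hV.copy _ hα t ht) h1
    · choose y hy1 hy2 using fun C => exists_eight (Sp v (K C t))
      let v' : Vr → k := fun x => Sum.elim (fun p => entV x.2 (y p.1 p.2))
        (fun a => v (Sum.inr a, x.2)) x.1
      have hg1 : ∀ C i, gen v' (Sum.inl (C, i)) = y C i := fun C i =>
        gm_of_ents _ _ _ (fun e _ => rfl)
      have hg2 : ∀ a, gen v' (Sum.inr a) = gen v (Sum.inr a) := fun a => by
        ext i j; simp [gen, v']
      have hr : ∀ w : List ℕ, rho v' (w.map Sum.inr) = rho v (w.map Sum.inr) := by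
        intro w
        induction w with
        | nil => rfl
        | cons a w ih => rw [List.map_cons, rho_cons, rho_cons, ih, hg2]
      have hfro : ∀ C, Sp v' (fro C) = Sp v (K C t) := by
        intro C
        rw [← hy2 C, Sp]
        congr 1
        ext M
        constructor
        · rintro ⟨x, hx, rfl⟩
          simp only [fro, List.mem_map, List.mem_range, Set.mem_ofPred_eq] at hx
          obtain ⟨i, hi, rfl⟩ := hx
          refine ⟨i, hi, ?_⟩
          simp [rho, hg1]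
        · rintro ⟨i, hi, rfl⟩
          refine ⟨[Sum.inl (C, i)], ?_, ?_⟩
          · simp only [fro, List.mem_map, List.mem_range, Set.mem_ofPred_eq]
            exact ⟨i, hi, rfl⟩
          · simp [rho, hg1]
      have hf : some f ∈ tops G := by
        simp only [tops, List.mem_cons, List.mem_append, List.mem_map]
        right; left
        exact ⟨_, hB, rfl⟩
      have h1 := ih (some f) (t.toList ++ σ) v' hf (by simp)
        (fun _ C w hw => by rw [hr, hfro]; exact ihn C w hw) B w hd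
      rw [hr] at h1
      have h2 : Sp v' (K B (some f)) ≤ Sp v (K A t) := by
        rw [Sp, Submodule.span_le]
        rintro _ ⟨x, hx, rfl⟩
        have h3 : rho v' x ∈ Sp v (subst (fun C => K C t) x) := by
          apply prod_mem_Sp
          rintro (⟨C, i⟩ | a) _
          · rw [hg1]; exact hy1 C i
          · rw [hg2]
            exact Submodule.subset_span ⟨[Sum.inr a], by simp [lets], by simp [rho]⟩
        exact Sp_le_of_InMod v _ _ (hV.push _ hB t ht x hx) h3
      exact h2 h1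
    · cases t with
      | none =>
        have := hnone rfl
        subst this
        simp at hs
      | some f' =>
        simp only [Option.toList_some, List.cons_append, List.nil_append, List.cons.injEq] at hs
        obtain ⟨rfl, rfl⟩ := hs
        have h1 := word_mem_Sp v fro (fun B w hw => hY (by simp) B w hw.succ) α w hd
        exact Sp_le_of_InMod v _ _ (hV.pop _ hα) h1

end sound

end Pool.Agent.Y599.TS
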