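import Mathlib

/-! Block diagonal embeddings and a faithful representation of words. -/

namespace Pool.Agent.Y599.TS

/-- the block diagonal matrix with two blocks -/
def blk {k : Type} [Field k] (a b : ℕ) (A : Matrix (Fin a) (Fin a) k) (B : Matrix (Fin b) (Fin b) k) :
    Matrix (Fin (a + b)) (Fin (a + b)) k :=
  (Matrix.fromBlocks A 0 0 B).submatrix finSumFinEquiv.symm finSumFinEquiv.symm

theorem blk_one {k : Type} [Field k] (a b : ℕ) :
    blk a b (1 : Matrix (Fin a) (Fin a) k) (1 : Matrix (Fin b) (Fin b) k) = 1 := by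
  rw [blk, Matrix.fromBlocks_one, Matrix.submatrix_one_equiv]

theorem blk_mul {k : Type} [Field k] (a b : ℕ) (A A' : Matrix (Fin a) (Fin a) k)
    (B B' : Matrix (Fin b) (Fin b) k) : blk a b (A * A') (B * B') = blk a b A B * blk a b A' B' := by
  rw [blk, blk, blk, Matrix.submatrix_mul_equiv, Matrix.fromBlocks_multiply]
  simp

theorem blk_left {k : Type} [Field k] (a b : ℕ) (A : Matrix (Fin a) (Fin a) k)
    (B : Matrix (Fin b) (Fin b) k) (i j : Fin a) :
    blk a b A B (Fin.castAdd b i) (Fin.castAdd b j) = A i j := by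
  simp [blk]

theorem blk_right {k : Type} [Field k] (a b : ℕ) (A : Matrix (Fin a) (Fin a) k)
    (B : Matrix (Fin b) (Fin b) k) (i j : Fin b) :
    blk a b A B (Fin.natAdd a i) (Fin.natAdd a j) = B i j := by
  simp [blk]

/-- the two diagonal blocks -/
def diagBlk (k : Type) [Field k] (a b : ℕ) : Matrix (Fin (a + b)) (Fin (a + b)) k →ₗ[k]
    Matrix (Fin a) (Fin a) k × Matrix (Fin b) (Fin b) k where
  toFun M := (Matrix.of fun i j => M (Fin.castAdd b i) (Fin.castAdd b j),
    Matrix.of fun i j => M (Fin.natAdd a i) (Fin.natAdd a j))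
  map_add' _ _ := rfl
  map_smul' _ _ := rfl

theorem diagBlk_blk {k : Type} [Field k] (a b : ℕ) (A : Matrix (Fin a) (Fin a) k)
    (B : Matrix (Fin b) (Fin b) k) : diagBlk k a b (blk a b A B) = (A, B) := by
  apply Prod.ext
  · ext i j
    exact blk_left a b A B i j
  · ext i j
    exact blk_right a b A B i j

/-- the block diagonal sum of two representations -/
def sumHom {k : Type} [Field k] {M : Type} [Monoid M] {a b : ℕ} (g : M →* Matrix (Fin a) (Fin a) k)
    (h : M →* Matrix (Fin b) (Fin b) k) : M →* Matrix (Fin (a + b)) (Fin (a + b)) k where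
  toFun m := blk a b (g m) (h m)
  map_one' := by rw [map_one, map_one, blk_one]
  map_mul' x y := by rw [map_mul, map_mul, blk_mul]

/-! a faithful representation of words -/

def MB {Δ : Type} (B : ℕ) (c : Δ → ℕ) (x : List Δ) : Matrix (Fin 2) (Fin 2) ℚ :=
  (x.map (fun d => !![(B : ℚ), (c d : ℚ); 0, 1])).prod

theorem MB_append {Δ : Type} (B : ℕ) (c : Δ → ℕ) (x y : List Δ) :
    MB B c (x ++ y) = MB B c x * MB B c y := by
  simp [MB]

/-- the representation as a homomorphism -/
def MBhom {Δ : Type} (B : ℕ) (c : Δ → ℕ) : FreeMonoid Δ →* Matrix (Fin 2) (Fin 2) ℚ where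
  toFun x := MB B c (FreeMonoid.toList x)
  map_one' := by simp [MB]
  map_mul' x y := by rw [FreeMonoid.toList_mul, MB_append]

theorem MB_eq {Δ : Type} (B : ℕ) (c : Δ → ℕ) (x : List Δ) :
    MB B c x = !![((B ^ x.length : ℕ) : ℚ), ((Nat.ofDigits B (x.map c) : ℕ) : ℚ); 0, 1] := by
  induction x with
  | nil => simp [MB, Matrix.one_fin_two]
  | cons d x ih =>
    have : MB B c (d :: x) = !![(B : ℚ), (c d : ℚ); 0, 1] * MB B c x := by simp [MB]
    rw [this, ih, List.map_cons, Nat.ofDigits_cons]
    ext i j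
    fin_cases i <;> fin_cases j <;> simp [Matrix.mul_apply, Fin.sum_univ_two, pow_succ] <;> ring

theorem map_inj_of_mem {Δ : Type} (W : List Δ) (c : Δ → ℕ)
    (hc : ∀ d ∈ W, ∀ d' ∈ W, c d = c d' → d = d') :
    ∀ x y : List Δ, (∀ d ∈ x, d ∈ W) → (∀ d ∈ y, d ∈ W) → x.map c = y.map c → x = y := by
  intro x
  induction x with
  | nil =>
    intro y _ _ h
    cases y with
    | nil => rfl
    | cons d y => simp at h
  | cons a x ih =>
    intro y hx hy h
    cases y with
    | nil => simp at h
    | cons d y =>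
      simp only [List.map_cons, List.cons.injEq] at h
      rw [hc a (hx a List.mem_cons_self) d (hy d List.mem_cons_self) h.1,
        ih y (fun e he => hx e (List.mem_cons_of_mem _ he))
          (fun e he => hy e (List.mem_cons_of_mem _ he)) h.2]

theorem MB_inj {Δ : Type} (B : ℕ) (c : Δ → ℕ) (x y : List Δ) (hB : 1 < B)
    (hc : ∀ d ∈ x ++ y, ∀ d' ∈ x ++ y, c d = c d' → d = d')
    (hlt : ∀ d ∈ x ++ y, c d < B) (h : MB B c x = MB B c y) : x = y := by
  rw [MB_eq, MB_eq] at h
  have h1 := congrFun (congrFun h 0) 0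
  have h2 := congrFun (congrFun h 0) 1
  simp only [Matrix.of_apply, Matrix.cons_val', Matrix.cons_val_zero, Matrix.cons_val_one] at h1 h2
  have h1' : B ^ x.length = B ^ y.length := by exact_mod_cast h1
  have hlen : x.length = y.length := Nat.pow_right_injective hB h1'
  have h2' : Nat.ofDigits B (x.map c) = Nat.ofDigits B (y.map c) := by exact_mod_cast h2
  have h3 : x.map c = y.map c := by
    refine Nat.ofDigits_inj_of_len_eq hB (by simp [hlen]) ?_ ?_ h2'
    · intro d hd
      rw [List.mem_map] at hd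
      obtain ⟨e, he, rfl⟩ := hd
      exact hlt e (List.mem_append_left _ he)
    · intro d hd
      rw [List.mem_map] at hd
      obtain ⟨e, he, rfl⟩ := hd
      exact hlt e (List.mem_append_right _ he)
  exact map_inj_of_mem (x ++ y) c hc x y (fun d hd => List.mem_append_left _ hd)
    (fun d hd => List.mem_append_right _ hd) h3

/-- two words of a free monoid are separated by representations of degree `e + 2` -/
theorem eq_of_rep {Δ : Type} (e : ℕ) (x y : FreeMonoid Δ)
    (h : ∀ r : FreeMonoid Δ →* Matrix (Fin (2 + e)) (Fin (2 + e)) ℚ, r x = r y) : x = y := by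
  classical
  let W : List Δ := FreeMonoid.toList x ++ FreeMonoid.toList y
  let c : Δ → ℕ := fun d => W.idxOf d
  let B : ℕ := W.length + 2
  have h1 := h (sumHom (MBhom B c) (1 : FreeMonoid Δ →* Matrix (Fin e) (Fin e) ℚ))
  have h2 : MB B c (FreeMonoid.toList x) = MB B c (FreeMonoid.toList y) := by
    have := congrArg (fun M => (diagBlk ℚ 2 e M).1) h1
    simp only [sumHom, MonoidHom.coe_mk, OneHom.coe_mk, diagBlk_blk] at this
    exact this
  refine FreeMonoid.toList.injective (MB_inj B c _ _ (by simp [B]) ?_ ?_ h2)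
  · intro d hd d' _ hdd
    exact (List.idxOf_inj hd).1 hdd
  · intro d hd
    have : W.idxOf d < W.length := List.idxOf_lt_length_iff.2 hd
    simp only [c, B]
    omega

end Pool.Agent.Y599.TS
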