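import Pool.Agent.Y599.TS.Cert
import Pool.Agent.Helper230.S1

/-! The certificate relation is semi-decidable, uniformly in the dimension (adapted from
`Pool.Agent.Helper230.IdxPrim`). -/

namespace Pool.Agent.Y599.TS

open Pool.Agent.Helper230

/-- the dimension `D` -/
@[reducible] def dim (D : ℕ) : Dim := ⟨D⟩

theorem prim_mulx : Primrec₂ mulx :=
  Primrec.list_map (f := fun p : PL × Vr => p.1) (g := fun p m => p.2 :: m) Primrec.fst
    (Primrec.list_cons.comp (Primrec.snd.comp Primrec.fst) Primrec.snd)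

theorem prim_pmul : Primrec₂ pmul :=
  Primrec.list_flatMap (f := fun p : PL × PL => p.1)
    (g := fun p m => p.2.map (fun m' => m ++ m')) Primrec.fst
    (Primrec.list_map (f := fun q : (PL × PL) × List Vr => q.1.2)
      (g := fun q m' => q.2 ++ m') (Primrec.snd.comp Primrec.fst)
      (Primrec.list_append.comp (Primrec.snd.comp Primrec.fst) Primrec.snd))

theorem prim_stepM : Primrec fun p : ℕ × M4 × Lt => @stepM (dim p.1) p.2.1 p.2.2 := by
  have hD : Primrec fun q : ((ℕ × M4 × Lt) × ℕ) × ℕ => q.1.1.1 :=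
    Primrec.fst.comp (Primrec.fst.comp Primrec.fst)
  have he : Primrec fun q : ((ℕ × M4 × Lt) × ℕ) × ℕ => q.1.2 := Primrec.snd.comp Primrec.fst
  have hM : Primrec fun q : ((ℕ × M4 × Lt) × ℕ) × ℕ => q.1.1.2.1 :=
    Primrec.fst.comp (Primrec.snd.comp (Primrec.fst.comp Primrec.fst))
  have hz : Primrec fun q : ((ℕ × M4 × Lt) × ℕ) × ℕ => q.1.1.2.2 :=
    Primrec.snd.comp (Primrec.snd.comp (Primrec.fst.comp Primrec.fst))
  have h0 : Primrec fun q : ((ℕ × M4 × Lt) × ℕ) × ℕ => q.1.2 / q.1.1.1 * q.1.1.1 + q.2 :=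
    Primrec.nat_add.comp (Primrec.nat_mul.comp (Primrec.nat_div.comp he hD) hD) Primrec.snd
  have h1 : Primrec fun q : ((ℕ × M4 × Lt) × ℕ) × ℕ =>
      (q.1.1.2.1.getD (q.1.2 / q.1.1.1 * q.1.1.1 + q.2) [] : PL) :=
    (Primrec.list_getD ([] : PL)).comp hM h0
  have h2 : Primrec fun q : ((ℕ × M4 × Lt) × ℕ) × ℕ =>
      ((q.1.1.2.2, q.2 * q.1.1.1 + q.1.2 % q.1.1.1) : Vr) :=
    Primrec.pair hz
      (Primrec.nat_add.comp (Primrec.nat_mul.comp Primrec.snd hD) (Primrec.nat_mod.comp he hD))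
  exact Primrec.list_map (f := fun p : ℕ × M4 × Lt => List.range (p.1 * p.1))
    (g := fun p e => (List.range p.1).flatMap (fun l =>
      mulx (p.2.1.getD (e / p.1 * p.1 + l) []) (p.2.2, l * p.1 + e % p.1)))
    (Primrec.list_range.comp (Primrec.nat_mul.comp Primrec.fst Primrec.fst))
    (Primrec.list_flatMap (f := fun q : (ℕ × M4 × Lt) × ℕ => List.range q.1.1)
      (g := fun q l => mulx (q.1.2.1.getD (q.2 / q.1.1 * q.1.1 + l) [])
        (q.1.2.2, l * q.1.1 + q.2 % q.1.1))
      (Primrec.list_range.comp (Primrec.fst.comp Primrec.fst)) (prim_mulx.comp h1 h2))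

theorem prim_ent0 : Primrec fun D : ℕ => @ent0 (dim D) := by
  refine Primrec.list_map (f := fun D : ℕ => List.range (D * D))
    (g := fun D e => if e / D = e % D then ([[]] : PL) else [])
    (Primrec.list_range.comp (Primrec.nat_mul.comp Primrec.id Primrec.id)) ?_
  exact Primrec.ite (Primrec.eq.comp (Primrec.nat_div.comp Primrec.snd Primrec.fst)
    (Primrec.nat_mod.comp Primrec.snd Primrec.fst)) (Primrec.const _) (Primrec.const _)

section irr0
attribute [local irreducible] stepM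

theorem prim_ents : Primrec fun p : ℕ × List Lt => @ents (dim p.1) p.2 := by
  have h1 : Primrec fun q : (ℕ × List Lt) × (M4 × Lt) => @stepM (dim q.1.1) q.2.1 q.2.2 :=
    Primrec.comp (f := fun p : ℕ × M4 × Lt => @stepM (dim p.1) p.2.1 p.2.2)
      (g := fun q : (ℕ × List Lt) × (M4 × Lt) => (q.1.1, q.2)) prim_stepM
      (Primrec.pair (Primrec.fst.comp Primrec.fst) Primrec.snd)
  have h2 : Primrec fun p : ℕ × List Lt => @ent0 (dim p.1) :=
    Primrec.comp (f := fun D : ℕ => @ent0 (dim D)) (g := fun p : ℕ × List Lt => p.1)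
      prim_ent0 Primrec.fst
  exact Primrec.list_foldl (f := fun p : ℕ × List Lt => p.2) (g := fun p => @ent0 (dim p.1))
    (h := fun p y => @stepM (dim p.1) y.1 y.2) Primrec.snd h2 h1

end irr0

section irr2
attribute [local irreducible] ents

theorem prim_entP : Primrec fun p : ℕ × ℕ × List Lt => @entP (dim p.1) p.2.1 p.2.2 := by
  have h1 : Primrec fun p : ℕ × ℕ × List Lt => @ents (dim p.1) p.2.2 :=
    Primrec.comp (f := fun p : ℕ × List Lt => @ents (dim p.1) p.2)
      (g := fun p : ℕ × ℕ × List Lt => (p.1, p.2.2)) prim_ents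
      (Primrec.pair Primrec.fst (Primrec.snd.comp Primrec.snd))
  have h2 : Primrec fun p : ℕ × ℕ × List Lt => p.2.1 := Primrec.fst.comp Primrec.snd
  have h3 : Primrec fun p : ℕ × ℕ × List Lt => ((@ents (dim p.1) p.2.2).getD p.2.1 [] : PL) :=
    (Primrec.list_getD ([] : PL)).comp h1 h2
  exact h3

end irr2

theorem prim_count {α : Type} [Primcodable α] [DecidableEq α] :
    Primrec₂ fun (x : α) (l : List α) => l.count x := by
  have h : Primrec₂ fun (l : List α) (x : α) => l.filter (fun a => decide (a = x)) :=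
    PrimrecRel.listFilter (R := fun a x : α => a = x) Primrec.eq
  have h2 : Primrec₂ fun (x : α) (l : List α) => (l.filter (fun a => decide (a = x))).length :=
    Primrec.list_length.comp (h.comp Primrec.snd Primrec.fst)
  refine h2.of_eq ?_
  intro x l
  rw [List.count_eq_length_filter]
  congr 1

theorem prim_perm {α : Type} [Primcodable α] [DecidableEq α] :
    PrimrecRel fun (m' m : List α) => m'.Perm m := by
  have hR : PrimrecRel fun (x : α) (y : List α × List α) => y.1.count x = y.2.count x :=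
    PrimrecRel.comp Primrec.eq
      (prim_count.comp Primrec.fst (Primrec.fst.comp Primrec.snd))
      (prim_count.comp Primrec.fst (Primrec.snd.comp Primrec.snd))
  have h1 : PrimrecRel fun (m' m : List α) => ∀ x ∈ m' ++ m, m'.count x = m.count x :=
    hR.forall_mem_list.comp (f := fun p : List α × List α => p.1 ++ p.2) (g := fun p => p)
      (Primrec.list_append.comp Primrec.fst Primrec.snd) Primrec.id
  refine h1.of_eq ?_
  intro m' m
  rw [List.perm_iff_count]
  constructor
  · intro h x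
    by_cases hx : x ∈ m' ++ m
    · exact h x hx
    · rw [List.mem_append, not_or] at hx
      rw [List.count_eq_zero_of_not_mem hx.1, List.count_eq_zero_of_not_mem hx.2]
  · intro h x _
    exact h x

theorem prim_cnt : Primrec₂ cnt := by
  have h : Primrec₂ fun (P : PL) (m : List Vr) => P.filter (fun m' => decide (m'.Perm m)) :=
    PrimrecRel.listFilter (R := fun m' m : List Vr => m'.Perm m) prim_perm
  exact Primrec.list_length.comp (h.comp Primrec.snd Primrec.fst)

theorem prim_polyEq : PrimrecRel polyEq := by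
  have hR : PrimrecRel fun (m : List Vr) (y : PL × PL) => cnt m y.1 = cnt m y.2 :=
    PrimrecRel.comp Primrec.eq
      (prim_cnt.comp Primrec.fst (Primrec.fst.comp Primrec.snd))
      (prim_cnt.comp Primrec.fst (Primrec.snd.comp Primrec.snd))
  exact hR.forall_mem_list.comp (f := fun p : PL × PL => p.1 ++ p.2) (g := fun p => p)
      (Primrec.list_append.comp Primrec.fst Primrec.snd) Primrec.id

abbrev CT := List (List Lt × PL × PL)

section irr1
attribute [local irreducible] entP pmul polyEq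

theorem prim_term (sel : List Lt × PL × PL → PL) (hsel : Primrec sel) :
    Primrec fun p : ℕ × (ℕ × List Lt × CT) =>
      p.2.2.2.flatMap (fun x => pmul (sel x) (@entP (dim p.2.1) p.1 x.1)) := by
  have h0 : Primrec fun q : (ℕ × (ℕ × List Lt × CT)) × (List Lt × PL × PL) =>
      (q.1.2.1, q.1.1, q.2.1) :=
    Primrec.pair (Primrec.fst.comp (Primrec.snd.comp Primrec.fst))
      (Primrec.pair (Primrec.fst.comp Primrec.fst) (Primrec.fst.comp Primrec.snd))
  have h1 : Primrec fun q : (ℕ × (ℕ × List Lt × CT)) × (List Lt × PL × PL) =>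
      @entP (dim q.1.2.1) q.1.1 q.2.1 :=
    Primrec.comp (f := fun p : ℕ × ℕ × List Lt => @entP (dim p.1) p.2.1 p.2.2)
      (g := fun q : (ℕ × (ℕ × List Lt × CT)) × (List Lt × PL × PL) => (q.1.2.1, q.1.1, q.2.1))
      prim_entP h0
  have h3 : Primrec fun q : (ℕ × (ℕ × List Lt × CT)) × (List Lt × PL × PL) => sel q.2 :=
    hsel.comp Primrec.snd
  have h2 : Primrec₂ fun (p : ℕ × (ℕ × List Lt × CT)) (x : List Lt × PL × PL) =>
      pmul (sel x) (@entP (dim p.2.1) p.1 x.1) :=
    prim_pmul.comp h3 h1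
  exact Primrec.list_flatMap (f := fun p : ℕ × (ℕ × List Lt × CT) => p.2.2.2)
    (g := fun p x => pmul (sel x) (@entP (dim p.2.1) p.1 x.1))
    (Primrec.snd.comp (Primrec.snd.comp Primrec.snd)) h2

theorem prim_left : Primrec fun q : ℕ × (ℕ × List Lt × CT) => @entP (dim q.2.1) q.1 q.2.2.1 := by
  have h0 : Primrec fun q : ℕ × (ℕ × List Lt × CT) => (q.2.1, q.1, q.2.2.1) :=
    Primrec.pair (Primrec.fst.comp Primrec.snd) (Primrec.pair Primrec.fst
      (Primrec.fst.comp (Primrec.snd.comp Primrec.snd)))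
  exact Primrec.comp (f := fun p : ℕ × ℕ × List Lt => @entP (dim p.1) p.2.1 p.2.2)
      (g := fun q : ℕ × (ℕ × List Lt × CT) => (q.2.1, q.1, q.2.2.1)) prim_entP h0

theorem prim_rel : PrimrecRel fun (e : ℕ) (y : ℕ × List Lt × CT) =>
      polyEq (@entP (dim y.1) e y.2.1 ++ y.2.2.flatMap (fun x => pmul x.2.1 (@entP (dim y.1) e x.1)))
        (y.2.2.flatMap (fun x => pmul x.2.2 (@entP (dim y.1) e x.1))) := by
  have h1 := prim_term (fun x => x.2.1) (Primrec.fst.comp Primrec.snd)
  have h2 := prim_term (fun x => x.2.2) (Primrec.snd.comp Primrec.snd)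
  have h3 : Primrec fun q : ℕ × (ℕ × List Lt × CT) =>
      @entP (dim q.2.1) q.1 q.2.2.1 ++ q.2.2.2.flatMap (fun x => pmul x.2.1 (@entP (dim q.2.1) q.1 x.1)) :=
    Primrec.list_append.comp prim_left h1
  exact PrimrecRel.comp prim_polyEq h3 h2

end irr1

theorem prim_Ident : PrimrecPred fun p : ℕ × List Lt × CT => @Ident (dim p.1) p.2.1 p.2.2 := by
  have h := prim_rel.forall_mem_list
  have h0 : Primrec fun y : ℕ × List Lt × CT => List.range (y.1 * y.1) :=
    Primrec.list_range.comp (Primrec.nat_mul.comp Primrec.fst Primrec.fst)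
  exact PrimrecRel.comp h h0 Primrec.id

theorem prim_mem {α : Type} [Primcodable α] : PrimrecRel fun (x : α) (l : List α) => x ∈ l := by
  have h : PrimrecRel fun (l : List α) (b : α) => ∃ c ∈ l, c = b :=
    (Primrec.eq (α := α)).exists_mem_list
  exact (h.comp Primrec.snd Primrec.fst).of_eq (fun p => by simp)

theorem s1_InMod : S1 fun p : ℕ × List (List Lt) × List Lt => @InMod (dim p.1) p.2.1 p.2.2 := by
  refine S1.exists (q := fun (p : ℕ × List (List Lt) × List Lt) (c : CT) =>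
    (∀ x ∈ c, x.1 ∈ p.2.1) ∧ @Ident (dim p.1) p.2.2 c) ?_
  refine S1.and ?_ (S1.of_prim ?_)
  · refine S1.forall_mem' (q := fun (y : (ℕ × List (List Lt) × List Lt) × CT)
      (x : List Lt × PL × PL) => x.1 ∈ y.1.2.1) Primrec.snd (S1.of_prim ?_)
    exact prim_mem.comp (Primrec.fst.comp Primrec.snd)
      (Primrec.fst.comp (Primrec.snd.comp (Primrec.fst.comp Primrec.fst)))
  · exact prim_Ident.comp (Primrec.pair (Primrec.fst.comp Primrec.fst)
      (Primrec.pair (Primrec.snd.comp (Primrec.snd.comp Primrec.fst)) Primrec.snd))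

abbrev Cert := List ((ℕ × Option ℕ) × List (List Lt))

def KC (C : Cert) (A : ℕ) (t : Option ℕ) : List (List Lt) :=
  (@List.lookup _ _ instBEqOfDecidableEq (A, t) C).getD []

theorem prim_KC : Primrec fun p : Cert × ℕ × Option ℕ => KC p.1 p.2.1 p.2.2 :=
  Primrec.option_getD.comp (Primrec.listLookup.comp Primrec.snd Primrec.fst) (Primrec.const [])

theorem prim_lets {β : Type} [Primcodable β] {κ : β → ℕ → List (List Lt)} (hκ : Primrec₂ κ) :
    Primrec₂ fun (b : β) (z : Lt) => lets (κ b) z := by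
  refine Primrec.sumCasesOn (f := fun p : β × Lt => p.2) (g := fun p q => κ p.1 q.1)
    (h := fun _ a => [[Sum.inr a]]) Primrec.snd ?_ ?_ |>.of_eq ?_
  · exact hκ.comp (Primrec.fst.comp Primrec.fst) (Primrec.fst.comp Primrec.snd)
  · exact Primrec.list_cons.comp (Primrec.list_cons.comp (Primrec.sumInr.comp Primrec.snd)
      (Primrec.const [])) (Primrec.const [])
  · rintro ⟨b, z⟩
    cases z <;> rfl

theorem prim_subst {β : Type} [Primcodable β] {κ : β → ℕ → List (List Lt)} (hκ : Primrec₂ κ) :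
    Primrec₂ fun (b : β) (u : List Lt) => subst (κ b) u := by
  refine Primrec.list_foldr (α := β × List Lt) (f := fun p => p.2) (g := fun _ => [[]])
    (h := fun p y => (lets (κ p.1) y.1).flatMap (fun x => y.2.map (fun z => x ++ z)))
    Primrec.snd (Primrec.const _) ?_
  refine Primrec.list_flatMap (α := (β × List Lt) × (Lt × List (List Lt)))
    (f := fun q => lets (κ q.1.1) q.2.1) (g := fun q x => q.2.2.map (fun z => x ++ z)) ?_ ?_
  · exact (prim_lets hκ).comp (Primrec.fst.comp Primrec.fst) (Primrec.fst.comp Primrec.snd)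
  · refine Primrec.list_map (f := fun q : ((β × List Lt) × (Lt × List (List Lt))) × List Lt =>
      q.1.2.2) (g := fun q z => q.2 ++ z) ?_ ?_
    · exact Primrec.snd.comp (Primrec.snd.comp Primrec.fst)
    · exact Primrec.list_append.comp (Primrec.snd.comp Primrec.fst) Primrec.snd

theorem prim_toLt : Primrec toLt := by
  refine Primrec.list_map (f := fun α : List (ℕ ⊕ ℕ) => α)
    (g := fun _ z => Sum.map (fun B => (B, 0)) id z) Primrec.id ?_
  refine (Primrec.sumCasesOn (f := fun p : List (ℕ ⊕ ℕ) × (ℕ ⊕ ℕ) => p.2)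
    (g := fun _ B => (Sum.inl (B, 0) : Lt)) (h := fun _ a => (Sum.inr a : Lt)) Primrec.snd
    ?_ ?_).of_eq ?_
  · exact Primrec.sumInl.comp (Primrec.pair Primrec.snd (Primrec.const 0))
  · exact Primrec.sumInr.comp Primrec.snd
  · rintro ⟨α, z⟩
    cases z <;> rfl

theorem prim_fro : Primrec₂ fun (D C : ℕ) => @fro (dim D) C := by
  refine Primrec.list_map (f := fun p : ℕ × ℕ => List.range (p.1 * p.1))
    (g := fun p i => ([Sum.inl (p.2, i)] : List Lt))
    (Primrec.list_range.comp (Primrec.nat_mul.comp Primrec.fst Primrec.fst)) ?_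
  exact Primrec.list_cons.comp (Primrec.sumInl.comp
    (Primrec.pair (Primrec.snd.comp Primrec.fst) Primrec.snd)) (Primrec.const [])

theorem prim_tops : Primrec tops := by
  refine Primrec.list_cons.comp (Primrec.const none) (Primrec.list_append.comp ?_ ?_)
  · refine Primrec.list_map (f := fun G : IGr => G.2.2.1) (g := fun _ r => some r.2.2)
      (Primrec.fst.comp (Primrec.snd.comp Primrec.snd)) ?_
    exact Primrec.option_some.comp (Primrec.snd.comp (Primrec.snd.comp Primrec.snd))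
  · refine Primrec.list_map (f := fun G : IGr => G.2.2.2) (g := fun _ r => some r.2.1)
      (Primrec.snd.comp (Primrec.snd.comp Primrec.snd)) ?_
    exact Primrec.option_some.comp (Primrec.fst.comp (Primrec.snd.comp Primrec.snd))

/-- the list `C` is a certificate for `G` in dimension `D` -/
def ValidC [Dim] (G : IGr) (C : Cert) : Prop := Valid G (KC C)

theorem prim_substKC : Primrec fun x : (Cert × Option ℕ) × List Lt =>
    subst (fun A => KC x.1.1 A x.1.2) x.2 := by
  have h : Primrec₂ fun (b : Cert × Option ℕ) (A : ℕ) => KC b.1 A b.2 :=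
    prim_KC.comp (Primrec.pair (Primrec.fst.comp Primrec.fst)
      (Primrec.pair Primrec.snd (Primrec.snd.comp Primrec.fst)))
  exact prim_subst h

theorem prim_substFro : Primrec fun x : ℕ × List Lt => subst (@fro (dim x.1)) x.2 :=
  prim_subst (κ := fun (D : ℕ) => @fro (dim D)) prim_fro

section irr
attribute [local irreducible] subst KC toLt InMod tops fro S1 Primrec

theorem s1_copy : S1 fun p : ℕ × IGr × Cert => ∀ r ∈ p.2.1.2.1, ∀ t ∈ tops p.2.1,
      ∀ k ∈ subst (fun C => KC p.2.2 C t) (toLt r.2), @InMod (dim p.1) (KC p.2.2 r.1 t) k := by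
  refine S1.forall_mem' (Primrec.fst.comp (Primrec.snd.comp (Primrec.fst.comp Primrec.snd))) ?_
  refine S1.forall_mem' (prim_tops.comp (Primrec.fst.comp (Primrec.snd.comp Primrec.fst))) ?_
  refine S1.forall_mem' (α := ((ℕ × IGr × Cert) × (ℕ × List (ℕ ⊕ ℕ))) × Option ℕ)
    (f := fun x => subst (fun C => KC x.1.1.2.2 C x.2) (toLt x.1.2.2)) ?_ ?_
  · exact prim_substKC.comp (g := fun x : ((ℕ × IGr × Cert) × (ℕ × List (ℕ ⊕ ℕ))) × Option ℕ =>
      ((x.1.1.2.2, x.2), toLt x.1.2.2))
      (Primrec.pair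
        (Primrec.pair (Primrec.snd.comp (Primrec.snd.comp (Primrec.fst.comp Primrec.fst)))
          Primrec.snd)
        (prim_toLt.comp (Primrec.snd.comp (Primrec.snd.comp Primrec.fst))))
  · have h0 : Primrec fun y : (((ℕ × IGr × Cert) × (ℕ × List (ℕ ⊕ ℕ))) × Option ℕ) ×
        List Lt => y.1.1.1.1 := Primrec.fst.comp (Primrec.fst.comp (Primrec.fst.comp Primrec.fst))
    have h1 : Primrec fun y : (((ℕ × IGr × Cert) × (ℕ × List (ℕ ⊕ ℕ))) × Option ℕ) ×
        List Lt => y.1.1.1.2.2 := Primrec.snd.comp (Primrec.snd.comp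
          (Primrec.fst.comp (Primrec.fst.comp Primrec.fst)))
    have h2 : Primrec fun y : (((ℕ × IGr × Cert) × (ℕ × List (ℕ ⊕ ℕ))) × Option ℕ) ×
        List Lt => y.1.1.2.1 := Primrec.fst.comp (Primrec.snd.comp (Primrec.fst.comp Primrec.fst))
    have h3 : Primrec fun y : (((ℕ × IGr × Cert) × (ℕ × List (ℕ ⊕ ℕ))) × Option ℕ) ×
        List Lt => y.1.2 := Primrec.snd.comp Primrec.fst
    exact s1_InMod.comp (f := fun y : (((ℕ × IGr × Cert) × (ℕ × List (ℕ ⊕ ℕ))) × Option ℕ) ×
      List Lt => (y.1.1.1.1, KC y.1.1.1.2.2 y.1.1.2.1 y.1.2, y.2))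
      (Primrec.pair h0 (Primrec.pair (prim_KC.comp (Primrec.pair h1 (Primrec.pair h2 h3)))
        Primrec.snd))

theorem s1_push : S1 fun p : ℕ × IGr × Cert => ∀ r ∈ p.2.1.2.2.1, ∀ t ∈ tops p.2.1,
      ∀ k ∈ KC p.2.2 r.2.1 (some r.2.2),
        ∀ k' ∈ subst (fun C => KC p.2.2 C t) k, @InMod (dim p.1) (KC p.2.2 r.1 t) k' := by
  refine S1.forall_mem' (Primrec.fst.comp (Primrec.snd.comp (Primrec.snd.comp
    (Primrec.fst.comp Primrec.snd)))) ?_
  refine S1.forall_mem' (prim_tops.comp (Primrec.fst.comp (Primrec.snd.comp Primrec.fst))) ?_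
  refine S1.forall_mem' (α := ((ℕ × IGr × Cert) × (ℕ × ℕ × ℕ)) × Option ℕ)
    (f := fun x => KC x.1.1.2.2 x.1.2.2.1 (some x.1.2.2.2)) ?_ ?_
  · have h1 : Primrec fun x : ((ℕ × IGr × Cert) × (ℕ × ℕ × ℕ)) × Option ℕ => x.1.1.2.2 :=
      Primrec.snd.comp (Primrec.snd.comp (Primrec.fst.comp Primrec.fst))
    have h2 : Primrec fun x : ((ℕ × IGr × Cert) × (ℕ × ℕ × ℕ)) × Option ℕ => x.1.2.2.1 :=
      Primrec.fst.comp (Primrec.snd.comp (Primrec.snd.comp Primrec.fst))
    have h3 : Primrec fun x : ((ℕ × IGr × Cert) × (ℕ × ℕ × ℕ)) × Option ℕ => some x.1.2.2.2 :=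
      Primrec.option_some.comp (Primrec.snd.comp (Primrec.snd.comp
        (Primrec.snd.comp Primrec.fst)))
    exact prim_KC.comp (Primrec.pair h1 (Primrec.pair h2 h3))
  · refine S1.forall_mem' (α := (((ℕ × IGr × Cert) × (ℕ × ℕ × ℕ)) × Option ℕ) × List Lt)
      (f := fun x => subst (fun C => KC x.1.1.1.2.2 C x.1.2) x.2) ?_ ?_
    · exact prim_substKC.comp
        (g := fun x : (((ℕ × IGr × Cert) × (ℕ × ℕ × ℕ)) × Option ℕ) × List Lt =>
          ((x.1.1.1.2.2, x.1.2), x.2)) (Primrec.pair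
        (Primrec.pair (Primrec.snd.comp (Primrec.snd.comp
          (Primrec.fst.comp (Primrec.fst.comp Primrec.fst))))
          (Primrec.snd.comp Primrec.fst)) Primrec.snd)
    · have h0 : Primrec fun y : ((((ℕ × IGr × Cert) × (ℕ × ℕ × ℕ)) × Option ℕ) × List Lt) ×
          List Lt => y.1.1.1.1.1 := Primrec.fst.comp (Primrec.fst.comp (Primrec.fst.comp
          (Primrec.fst.comp Primrec.fst)))
      have h1 : Primrec fun y : ((((ℕ × IGr × Cert) × (ℕ × ℕ × ℕ)) × Option ℕ) × List Lt) ×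
          List Lt => y.1.1.1.1.2.2 := Primrec.snd.comp (Primrec.snd.comp (Primrec.fst.comp
          (Primrec.fst.comp (Primrec.fst.comp Primrec.fst))))
      have h2 : Primrec fun y : ((((ℕ × IGr × Cert) × (ℕ × ℕ × ℕ)) × Option ℕ) × List Lt) ×
          List Lt => y.1.1.1.2.1 := Primrec.fst.comp (Primrec.snd.comp (Primrec.fst.comp
          (Primrec.fst.comp Primrec.fst)))
      have h3 : Primrec fun y : ((((ℕ × IGr × Cert) × (ℕ × ℕ × ℕ)) × Option ℕ) × List Lt) ×
          List Lt => y.1.1.2 := Primrec.snd.comp (Primrec.fst.comp Primrec.fst)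
      exact s1_InMod.comp (f := fun y : ((((ℕ × IGr × Cert) × (ℕ × ℕ × ℕ)) × Option ℕ) ×
        List Lt) × List Lt => (y.1.1.1.1.1, KC y.1.1.1.1.2.2 y.1.1.1.2.1 y.1.1.2, y.2))
        (Primrec.pair h0 (Primrec.pair (prim_KC.comp (Primrec.pair h1 (Primrec.pair h2 h3)))
          Primrec.snd))

theorem s1_pop : S1 fun p : ℕ × IGr × Cert => ∀ r ∈ p.2.1.2.2.2,
      ∀ k ∈ subst (@fro (dim p.1)) (toLt r.2.2),
      @InMod (dim p.1) (KC p.2.2 r.1 (some r.2.1)) k := by
  refine S1.forall_mem' (Primrec.snd.comp (Primrec.snd.comp (Primrec.snd.comp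
    (Primrec.fst.comp Primrec.snd)))) ?_
  refine S1.forall_mem' (α := (ℕ × IGr × Cert) × (ℕ × ℕ × List (ℕ ⊕ ℕ)))
    (f := fun x => subst (@fro (dim x.1.1)) (toLt x.2.2.2)) ?_ ?_
  · exact prim_substFro.comp (g := fun x : (ℕ × IGr × Cert) × (ℕ × ℕ × List (ℕ ⊕ ℕ)) =>
      (x.1.1, toLt x.2.2.2)) (Primrec.pair (Primrec.fst.comp Primrec.fst)
        (prim_toLt.comp (Primrec.snd.comp (Primrec.snd.comp Primrec.snd))))
  · have h0 : Primrec fun y : ((ℕ × IGr × Cert) × (ℕ × ℕ × List (ℕ ⊕ ℕ))) ×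
        List Lt => y.1.1.1 := Primrec.fst.comp (Primrec.fst.comp Primrec.fst)
    have h1 : Primrec fun y : ((ℕ × IGr × Cert) × (ℕ × ℕ × List (ℕ ⊕ ℕ))) ×
        List Lt => y.1.1.2.2 := Primrec.snd.comp (Primrec.snd.comp
          (Primrec.fst.comp Primrec.fst))
    have h2 : Primrec fun y : ((ℕ × IGr × Cert) × (ℕ × ℕ × List (ℕ ⊕ ℕ))) ×
        List Lt => y.1.2.1 := Primrec.fst.comp (Primrec.snd.comp Primrec.fst)
    have h3 : Primrec fun y : ((ℕ × IGr × Cert) × (ℕ × ℕ × List (ℕ ⊕ ℕ))) ×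
        List Lt => some y.1.2.2.1 := Primrec.option_some.comp (Primrec.fst.comp
        (Primrec.snd.comp (Primrec.snd.comp Primrec.fst)))
    exact s1_InMod.comp (f := fun y : ((ℕ × IGr × Cert) × (ℕ × ℕ × List (ℕ ⊕ ℕ))) ×
        List Lt => (y.1.1.1, KC y.1.1.2.2 y.1.2.1 (some y.1.2.2.1), y.2))
      (Primrec.pair h0 (Primrec.pair (prim_KC.comp (Primrec.pair h1 (Primrec.pair h2 h3)))
        Primrec.snd))

theorem s1_ValidC : S1 fun p : ℕ × IGr × Cert => @ValidC (dim p.1) p.2.1 p.2.2 := by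
  refine (s1_copy.and (s1_push.and s1_pop)).of_eq ?_
  intro p
  letI := dim p.1
  exact ⟨fun ⟨a, b, c⟩ => ⟨a, b, c⟩, fun ⟨a, b, c⟩ => ⟨a, b, c⟩⟩

end irr

theorem lookup_map_getD {α β : Type} [DecidableEq α] (f : α → List β) (a : α) (l : List α) :
    ((l.map (fun x => (x, f x))).lookup a).getD [] = if a ∈ l then f a else [] := by
  induction l with
  | nil => simp
  | cons x l ih =>
    rw [List.map_cons, List.lookup_cons]
    by_cases hx : a = x
    · subst hx; simp
    · have hb : (a == x) = false := decide_eq_false hx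
      rw [hb]
      refine ih.trans ?_
      simp [hx]

/-- a certificate as a list -/
theorem exists_certC [Dim] (G : IGr) : ∃ C : Cert, ValidC G C ∧ ∀ A t, ∀ k ∈ KC C A t, k ∈ KG G A t := by
  obtain ⟨K, hV, hK, hfin⟩ := exists_cert G
  let C : Cert := ((lhs G).product (tops G)).map (fun x => (x, K x.1 x.2))
  have hC : ∀ A t, KC C A t = K A t := by
    intro A t
    have h := lookup_map_getD (fun x : ℕ × Option ℕ => K x.1 x.2) (A, t)
      ((lhs G).product (tops G))
    rw [KC, h]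
    rcases hfin A t with h1 | h1
    · rw [if_pos]
      exact List.mem_product.2 h1
    · rw [h1]; simp
  have hCK : KC C = K := by
    funext A t; exact hC A t
  refine ⟨C, ?_, ?_⟩
  · rw [ValidC, hCK]; exact hV
  · rw [hCK]; exact hK

end Pool.Agent.Y599.TS
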